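import Mathlib
import Pool.Agent.Y949.J.Ram2

/-!
# Ramanujan's identities as identities of formal power series
-/

set_option autoImplicit false

open UpperHalfPlane hiding I
open Real Complex Filter Topology Derivative EisensteinSeries ModularForm MatrixGroups Function
open scoped Manifold MatrixGroups ModularForm PowerSeries

namespace Pool.Agent.Q17.Mil

/-- the function `F` on the upper half-plane has the `q`-expansion `p` -/
def HS (p : PowerSeries ℂ) (F : ℍ → ℂ) : Prop :=
  ∀ τ : ℍ, HasSum (fun n => PowerSeries.coeff n p * Function.Periodic.qParam 1 τ ^ n) (F τ)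

theorem HS.add {p p' : PowerSeries ℂ} {F F' : ℍ → ℂ} (h : HS p F) (h' : HS p' F') :
    HS (p + p') (fun τ => F τ + F' τ) := by
  intro τ
  refine ((h τ).add (h' τ)).congr_fun ?_
  intro n
  rw [map_add]; ring

theorem HS.sub {p p' : PowerSeries ℂ} {F F' : ℍ → ℂ} (h : HS p F) (h' : HS p' F') :
    HS (p - p') (fun τ => F τ - F' τ) := by
  intro τ
  refine ((h τ).sub (h' τ)).congr_fun ?_
  intro n
  rw [map_sub]; ring

theorem HS.smul {p : PowerSeries ℂ} {F : ℍ → ℂ} (c : ℂ) (h : HS p F) :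
    HS (PowerSeries.C c * p) (fun τ => c * F τ) := by
  intro τ
  refine ((h τ).mul_left c).congr_fun ?_
  intro n
  rw [PowerSeries.coeff_C_mul]; ring

theorem HS.mul {p p' : PowerSeries ℂ} {F F' : ℍ → ℂ} (h : HS p F) (h' : HS p' F') :
    HS (p * p') (fun τ => F τ * F' τ) := by
  intro τ
  have s1 := (h τ).summable.norm
  have s2 := (h' τ).summable.norm
  have h3 := tsum_mul_tsum_eq_tsum_sum_antidiagonal_of_summable_norm s1 s2
  rw [(h τ).tsum_eq, (h' τ).tsum_eq] at h3
  have h4 := (summable_norm_sum_mul_antidiagonal_of_summable_norm s1 s2).of_norm.hasSum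
  rw [← h3] at h4
  refine h4.congr_fun ?_
  intro n
  rw [PowerSeries.coeff_mul, Finset.sum_mul]
  refine Finset.sum_congr rfl fun x hx => ?_
  have hx' : x.1 + x.2 = n := by simpa using hx
  rw [← hx', pow_add]
  ring

theorem coeff_X_deriv (p : PowerSeries ℂ) (n : ℕ) :
    PowerSeries.coeff n (PowerSeries.X * d⁄dX ℂ p) = n * PowerSeries.coeff n p := by
  cases n with
  | zero => simp
  | succ n =>
    rw [PowerSeries.coeff_succ_X_mul, PowerSeries.coeff_derivative]
    push_cast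
    ring

theorem qP_eq (w : ℂ) : Function.Periodic.qParam 1 w = Complex.exp (2 * π * Complex.I * w) := by
  simp [Function.Periodic.qParam]

theorem norm_qP (w : ℂ) : ‖Function.Periodic.qParam 1 w‖ = Real.exp (-(2 * π * w.im)) := by
  rw [qP_eq, Complex.norm_exp]
  congr 1
  simp

/-- the derivative -/
theorem HS.D {p : PowerSeries ℂ} {F : ℍ → ℂ} (h : HS p F) :
    HS (PowerSeries.X * d⁄dX ℂ p) (Derivative.normalizedDerivOfComplex F) := by
  intro τ
  set y0 : ℝ := τ.im with hy0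
  have hy0p : 0 < y0 := τ.im_pos
  set U : Set ℂ := {w | y0 / 2 < w.im} with hU
  have hUo : IsOpen U := isOpen_lt continuous_const Complex.continuous_im
  have hτU : (τ : ℂ) ∈ U := by
    change y0 / 2 < τ.im
    rw [← hy0]; linarith
  set G : ℕ → ℂ → ℂ := fun n w => PowerSeries.coeff n p *
    Complex.exp (2 * π * Complex.I * w) ^ n with hG
  let τ' : ℍ := ⟨(y0 / 2 : ℝ) * Complex.I, by simp; linarith⟩
  have hs' := (h τ').summable.norm
  have hder : ∀ n w, HasDerivAt (G n) (n * (2 * π * Complex.I) * G n w) w := by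
    intro n w
    have h1 : HasDerivAt (fun w : ℂ => 2 * π * Complex.I * w) (2 * π * Complex.I * 1) w :=
      (hasDerivAt_id w).const_mul _
    have h2 := h1.cexp
    have h3 := (h2.pow n).const_mul (PowerSeries.coeff n p)
    refine h3.congr_deriv ?_
    rw [hG]
    simp only
    cases n with
    | zero => simp
    | succ n =>
      simp only [Nat.add_sub_cancel]
      rw [pow_succ]
      ring
  have hbound : ∀ n w, w ∈ U → ‖G n w‖ ≤ ‖PowerSeries.coeff n p *
      Function.Periodic.qParam 1 (τ' : ℂ) ^ n‖ := by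
    intro n w hw
    rw [hG]
    simp only
    rw [norm_mul, norm_mul, norm_pow, norm_pow, ← qP_eq, norm_qP, norm_qP]
    have hw' : y0 / 2 < w.im := hw
    have h1 : ((τ' : ℍ) : ℂ).im = y0 / 2 := by
      change ((y0 / 2 : ℝ) * Complex.I : ℂ).im = y0 / 2
      simp
    rw [h1]
    gcongr
  have hsum := Complex.hasSum_deriv_of_summable_norm hs'
    (fun n w _ => (hder n w).differentiableAt.differentiableWithinAt) hUo hbound hτU
  have heq : (fun w : ℂ => ∑' n, G n w) =ᶠ[𝓝 (τ : ℂ)] (F ∘ ofComplex) := by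
    filter_upwards [hUo.mem_nhds hτU] with w hw
    have hw' : 0 < w.im := by
      have : y0 / 2 < w.im := hw
      linarith
    rw [Function.comp_apply, ofComplex_apply_of_im_pos hw']
    have h2 := (h ⟨w, hw'⟩).tsum_eq
    rw [← h2]
    refine tsum_congr fun n => ?_
    rw [hG]
    simp only
    rw [← qP_eq]
  rw [heq.deriv_eq] at hsum
  have h2 := hsum.mul_left ((2 * π * Complex.I)⁻¹)
  refine h2.congr_fun ?_
  intro n
  rw [(hder n τ).deriv, coeff_X_deriv, hG]
  simp only
  rw [← qP_eq]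
  have hpi : (2 * π * Complex.I : ℂ) ≠ 0 := Complex.two_pi_I_ne_zero
  field_simp

theorem hs_form {k : ℤ} (f : ModularForm 𝒮ℒ k) : HS (qExpansion 1 f) f := by
  intro τ
  exact UpperHalfPlane.hasSum_qExpansion one_pos
    (SlashInvariantFormClass.periodic_comp_ofComplex f one_mem_strictPeriods_SL)
    (ModularFormClass.holo f) (ModularFormClass.bdd_at_infty f) τ

theorem HS.eq_q {k : ℤ} {f : ModularForm 𝒮ℒ k} {p : PowerSeries ℂ} (h : HS p f) :
    p = qExpansion 1 f := by
  ext n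
  refine ModularFormClass.qExpansion_coeff_unique one_pos one_mem_strictPeriods_SL
    (c := fun n => PowerSeries.coeff n p) ?_ n
  intro τ
  exact h τ

/-- `E_2` -/
noncomputable def E2p : PowerSeries ℂ := PowerSeries.mk fun n => if n = 0 then 1 else
  -24 * ((ArithmeticFunction.sigma 1 n : ℕ) : ℂ)

theorem hs_E2 : HS E2p E2 := by
  intro τ
  have h := hasSum_qExpansion_E2 (z := τ)
  refine h.congr_fun ?_
  intro n
  rw [E2p, PowerSeries.coeff_mk, qP_eq]
  simp [smul_eq_mul]

theorem ram4_formal : PowerSeries.X * d⁄dX ℂ (qExpansion 1 E₄) =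
    PowerSeries.C (3⁻¹ : ℂ) * (E2p * qExpansion 1 E₄ - qExpansion 1 E₆) := by
  have h1 := (((hs_E2.mul (hs_form E₄)).smul (3⁻¹ : ℂ)).sub (hs_form E₄).D).smul (3 : ℂ)
  have h2 : HS (PowerSeries.C (3 : ℂ) * (PowerSeries.C (3⁻¹ : ℂ) * (E2p * qExpansion 1 E₄) -
      PowerSeries.X * d⁄dX ℂ (qExpansion 1 E₄))) E₆ := by
    intro τ
    have h3 := h1 τ
    have h4 := Pool.Agent.Y949.J.ram4 τ
    have h5 : (3 : ℂ) * (3⁻¹ * (E2 τ * E₄ τ) - Derivative.normalizedDerivOfComplex E₄ τ) = E₆ τ := by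
      change Derivative.normalizedDerivOfComplex (fun w => E₄ w) τ = _ at h4
      rw [h4]; ring
    beta_reduce at h3
    rw [h5] at h3
    exact h3
  have h3 := h2.eq_q
  have hc : (PowerSeries.C (3 : ℂ)) * (PowerSeries.C (3⁻¹ : ℂ)) = 1 := by
    rw [← map_mul]; norm_num
  rw [← h3]
  linear_combination (-(PowerSeries.X * d⁄dX ℂ (qExpansion 1 E₄) -
    PowerSeries.C (3⁻¹ : ℂ) * (E2p * qExpansion 1 E₄))) * hc

theorem ram6_formal : PowerSeries.X * d⁄dX ℂ (qExpansion 1 E₆) =
    PowerSeries.C (2⁻¹ : ℂ) * (E2p * qExpansion 1 E₆ - (qExpansion 1 E₄) ^ 2) := by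
  have h1 := (((hs_E2.mul (hs_form E₆)).smul (2⁻¹ : ℂ)).sub (hs_form E₆).D).smul (2 : ℂ)
  have h2 : HS (PowerSeries.C (2 : ℂ) * (PowerSeries.C (2⁻¹ : ℂ) * (E2p * qExpansion 1 E₆) -
      PowerSeries.X * d⁄dX ℂ (qExpansion 1 E₆))) (E₄.pow 2) := by
    intro τ
    have h3 := h1 τ
    have h4 := Pool.Agent.Y949.J.ram6 τ
    have h5 : (2 : ℂ) * (2⁻¹ * (E2 τ * E₆ τ) - Derivative.normalizedDerivOfComplex E₆ τ) =
        (E₄.pow 2) τ := by
      change Derivative.normalizedDerivOfComplex (fun w => E₆ w) τ = _ at h4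
      rw [h4, coe_pow, Pi.pow_apply]; ring
    beta_reduce at h3
    rw [h5] at h3
    exact h3
  have h3 := h2.eq_q
  rw [ModularForm.qExpansion_pow one_pos one_mem_strictPeriods_SL] at h3
  have hc : (PowerSeries.C (2 : ℂ)) * (PowerSeries.C (2⁻¹ : ℂ)) = 1 := by
    rw [← map_mul]; norm_num
  rw [← h3]
  linear_combination (-(PowerSeries.X * d⁄dX ℂ (qExpansion 1 E₆) -
    PowerSeries.C (2⁻¹ : ℂ) * (E2p * qExpansion 1 E₆))) * hc

end Pool.Agent.Q17.Mil
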