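import Mathlib
import Pool.Agent.Q17.Mil.Ram

/-!
# Positivity of the Faber polynomials on `[1728, ∞)`: formal part
-/

set_option autoImplicit false

namespace Pool.Agent.Q17.Mil.R

open Finset PowerSeries

/-- `θ f = X f'` -/
noncomputable def th (f : ℝ⟦X⟧) : ℝ⟦X⟧ := X * d⁄dX ℝ f

theorem coeff_th (f : ℝ⟦X⟧) (n : ℕ) : coeff n (th f) = n * coeff n f := by
  cases n with
  | zero => simp [th]
  | succ n =>
    rw [th, coeff_succ_X_mul, coeff_derivative]
    push_cast
    ring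

theorem th_mul (f g : ℝ⟦X⟧) : th (f * g) = th f * g + f * th g := by
  unfold th
  rw [Derivation.leibniz, smul_eq_mul, smul_eq_mul]
  ring

theorem th_sub (f g : ℝ⟦X⟧) : th (f - g) = th f - th g := by
  unfold th; rw [map_sub]; ring

theorem th_smul (c : ℝ) (f : ℝ⟦X⟧) : th (PowerSeries.C c * f) = PowerSeries.C c * th f := by
  ext n
  rw [coeff_th, coeff_C_mul, coeff_C_mul, coeff_th]; ring

theorem th_pow (f : ℝ⟦X⟧) (n : ℕ) : th (f ^ (n + 1)) = (n + 1 : ℕ) * f ^ n * th f := by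
  induction n with
  | zero => simp
  | succ n ih =>
    rw [pow_succ, th_mul, ih]
    push_cast
    ring

theorem th_pow2 (f : ℝ⟦X⟧) : th (f ^ 2) = 2 * f * th f := by
  have := th_pow f 1
  push_cast at this
  linear_combination this

theorem th_pow3 (f : ℝ⟦X⟧) : th (f ^ 3) = 3 * f ^ 2 * th f := by
  have := th_pow f 2
  push_cast at this
  linear_combination this

theorem th_one : th (1 : ℝ⟦X⟧) = 0 := by simp [th]

theorem th_X : th (X : ℝ⟦X⟧) = X := by
  ext n
  rw [coeff_th, coeff_X]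
  split_ifs with h
  · subst h; simp
  · simp

/-- `E_2` -/
noncomputable def E2 : ℝ⟦X⟧ := PowerSeries.mk fun n => if n = 0 then 1 else
  -24 * ((ArithmeticFunction.sigma 1 n : ℕ) : ℝ)

/-- `E_4` -/
noncomputable def E4 : ℝ⟦X⟧ := PowerSeries.mk fun n => if n = 0 then 1 else
  240 * ((ArithmeticFunction.sigma 3 n : ℕ) : ℝ)

/-- `E_6` -/
noncomputable def E6 : ℝ⟦X⟧ := PowerSeries.mk fun n => if n = 0 then 1 else
  -504 * ((ArithmeticFunction.sigma 5 n : ℕ) : ℝ)

/-- the embedding of coefficients -/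
noncomputable abbrev cm : ℝ⟦X⟧ →+* ℂ⟦X⟧ := PowerSeries.map (algebraMap ℝ ℂ)

theorem cm_inj : Function.Injective cm := by
  intro f g h
  ext n
  have := congrArg (coeff n) h
  rw [coeff_map, coeff_map] at this
  exact (algebraMap ℝ ℂ).injective this

open UpperHalfPlane EisensteinSeries in
theorem q_E4 : qExpansion 1 ModularForm.E₄ = cm E4 := by
  ext n
  rw [E_qExpansion_coeff (by norm_num) ⟨2, rfl⟩, PowerSeries.coeff_map, E4, PowerSeries.coeff_mk]
  split_ifs with h
  · simp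
  · rw [show bernoulli 4 = -1 / 30 by decide +kernel]
    push_cast
    norm_num

open UpperHalfPlane EisensteinSeries in
theorem q_E6 : qExpansion 1 ModularForm.E₆ = cm E6 := by
  ext n
  rw [E_qExpansion_coeff (by norm_num) ⟨3, rfl⟩, PowerSeries.coeff_map, E6, PowerSeries.coeff_mk]
  split_ifs with h
  · simp
  · rw [show bernoulli 6 = 1 / 42 by decide +kernel]
    push_cast
    norm_num

theorem q_E2 : E2p = cm E2 := by
  ext n
  rw [PowerSeries.coeff_map, E2, E2p, PowerSeries.coeff_mk, PowerSeries.coeff_mk]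
  split_ifs with h
  · simp
  · push_cast
    norm_num

theorem cm_th (f : ℝ⟦X⟧) : cm (th f) = X * d⁄dX ℂ (cm f) := by
  ext n
  rw [coeff_map, coeff_th, coeff_X_deriv, coeff_map]
  simp

theorem ram4 : 3 * th E4 = E2 * E4 - E6 := by
  apply cm_inj
  have h := ram4_formal
  rw [q_E4, q_E6, q_E2, ← cm_th] at h
  have hc : (3 : ℂ⟦X⟧) * (PowerSeries.C (3⁻¹ : ℂ)) = 1 := by
    rw [← map_ofNat PowerSeries.C 3, ← map_mul]; norm_num
  rw [map_mul, map_sub, map_mul, map_ofNat, h]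
  linear_combination (cm E2 * cm E4 - cm E6) * hc

theorem ram6 : 2 * th E6 = E2 * E6 - E4 ^ 2 := by
  apply cm_inj
  have h := ram6_formal
  rw [q_E4, q_E6, q_E2, ← cm_th] at h
  have hc : (2 : ℂ⟦X⟧) * (PowerSeries.C (2⁻¹ : ℂ)) = 1 := by
    rw [← map_ofNat PowerSeries.C 2, ← map_mul]; norm_num
  rw [map_mul, map_sub, map_mul, map_ofNat, h, map_pow]
  linear_combination (cm E2 * cm E6 - cm E4 ^ 2) * hc

/-- `Δ = (E_4 ^ 3 - E_6 ^ 2) / 1728` -/
noncomputable def Dl : ℝ⟦X⟧ := PowerSeries.C (1 / 1728) * (E4 ^ 3 - E6 ^ 2)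

/-- `Δ / q` -/
noncomputable def dd : ℝ⟦X⟧ := PowerSeries.mk fun n => coeff (n + 1) Dl

theorem cc_E4 : constantCoeff E4 = 1 := by
  rw [← coeff_zero_eq_constantCoeff_apply, E4, coeff_mk, if_pos rfl]

theorem cc_E6 : constantCoeff E6 = 1 := by
  rw [← coeff_zero_eq_constantCoeff_apply, E6, coeff_mk, if_pos rfl]

theorem cc_Dl : constantCoeff Dl = 0 := by
  rw [Dl, map_mul, map_sub, map_pow, map_pow, cc_E4, cc_E6]; simp

theorem C1728 : (PowerSeries.C (1728 : ℝ) : ℝ⟦X⟧) = 1728 := map_ofNat PowerSeries.C 1728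

theorem c1728 : (PowerSeries.C (1 / 1728) : ℝ⟦X⟧) * 1728 = 1 := by
  rw [← C1728, ← map_mul]
  norm_num

theorem Dl_1728 : 1728 * Dl = E4 ^ 3 - E6 ^ 2 := by
  rw [Dl]
  linear_combination (E4 ^ 3 - E6 ^ 2) * c1728

theorem cancel1728 {f g : ℝ⟦X⟧} (h : 1728 * f = 1728 * g) : f = g := by
  linear_combination (PowerSeries.C (1 / 1728)) * h - (f - g) * c1728

theorem Dl_eq : Dl = X * dd := by
  ext n
  cases n with
  | zero =>
    rw [coeff_zero_eq_constantCoeff_apply, cc_Dl]; simp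
  | succ n => rw [coeff_succ_X_mul, dd, coeff_mk]

theorem coeff_one_pow {f : ℝ⟦X⟧} (hf : constantCoeff f = 1) (n : ℕ) :
    coeff 1 (f ^ n) = n * coeff 1 f := by
  induction n with
  | zero => simp [coeff_one]
  | succ n ih =>
    rw [pow_succ, coeff_mul, Nat.antidiagonal_succ]
    simp [ih, hf]
    ring

theorem cc_dd : constantCoeff dd = 1 := by
  rw [← coeff_zero_eq_constantCoeff_apply, dd, coeff_mk, Dl, coeff_C_mul, map_sub,
    coeff_one_pow cc_E4, coeff_one_pow cc_E6, E4, E6, coeff_mk, coeff_mk]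
  simp [ArithmeticFunction.sigma_one]
  norm_num

/-- `(Δ / q)⁻¹` -/
noncomputable def uu : ℝ⟦X⟧ := dd⁻¹

theorem dd_uu : dd * uu = 1 := PowerSeries.mul_inv_cancel _ (by rw [cc_dd]; norm_num)

theorem cc_uu : constantCoeff uu = 1 := by
  have h := congrArg constantCoeff dd_uu
  rwa [map_mul, cc_dd, map_one, one_mul] at h

theorem th_uu : th uu = -(uu ^ 2 * th dd) := by
  have h := congrArg th dd_uu
  rw [th_mul, th_one] at h
  linear_combination uu * h - (th uu) * dd_uu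

theorem th_Dl' : th Dl = X * dd + X * th dd := by rw [Dl_eq, th_mul, th_X]

/-- `θ Δ = E_2 Δ` -/
theorem th_Dl : th Dl = E2 * Dl := by
  apply cancel1728
  have h3 : 1728 * th Dl = 3 * E4 ^ 2 * th E4 - 2 * E6 * th E6 := by
    have := congrArg th Dl_1728
    rw [th_sub, th_pow3, th_pow2] at this
    have h4 : th (1728 * Dl) = 1728 * th Dl := by rw [← C1728, th_smul]
    rw [h4] at this
    exact this
  rw [h3]
  linear_combination E4 ^ 2 * ram4 - E6 * ram6 - E2 * Dl_1728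

theorem X_cancel {f g : ℝ⟦X⟧} (h : X * f = X * g) : f = g := by
  ext n
  have := congrArg (coeff (n + 1)) h
  rwa [coeff_succ_X_mul, coeff_succ_X_mul] at this

theorem th_dd : th dd = (E2 - 1) * dd := by
  apply X_cancel
  have h1 := th_Dl
  rw [th_Dl', Dl_eq] at h1
  linear_combination h1

theorem th_uu' : th uu = (1 - E2) * uu := by
  rw [th_uu, th_dd]
  linear_combination (1 - E2) * uu * dd_uu

/-- `q j` -/
noncomputable def JJ : ℝ⟦X⟧ := E4 ^ 3 * uu

/-- `- q θ j` -/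
theorem JJ_th : JJ - th JJ = E4 ^ 2 * E6 * uu := by
  rw [JJ, th_mul, th_pow3, th_uu']
  linear_combination (-(E4 ^ 2 * uu)) * ram4

end Pool.Agent.Q17.Mil.R
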