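import Mathlib
import Pool.Agent.Q17.Mil.Pos

/-!
# Positivity of the Faber polynomials on `[1728, ∞)`: the residue formula and the signs
-/

set_option autoImplicit false

namespace Pool.Agent.Q17.Mil.R

open Finset PowerSeries

/-! ### Nonnegative coefficients -/

/-- all coefficients are nonnegative -/
def NN (f : ℝ⟦X⟧) : Prop := ∀ n, 0 ≤ coeff n f

theorem NN.mul {f g : ℝ⟦X⟧} (hf : NN f) (hg : NN g) : NN (f * g) := by
  intro n
  rw [coeff_mul]
  exact sum_nonneg fun p _ => mul_nonneg (hf _) (hg _)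

theorem NN.one : NN 1 := by
  intro n
  rw [coeff_one]; split_ifs <;> norm_num

theorem NN.pow {f : ℝ⟦X⟧} (hf : NN f) (n : ℕ) : NN (f ^ n) := by
  induction n with
  | zero => rw [pow_zero]; exact NN.one
  | succ n ih => rw [pow_succ]; exact ih.mul hf

theorem pos_mul {f g : ℝ⟦X⟧} (hf : NN f) (hf0 : 0 < constantCoeff f) (hg : ∀ n, 0 < coeff n g)
    (n : ℕ) : 0 < coeff n (f * g) := by
  rw [coeff_mul]
  have h1 : (0, n) ∈ antidiagonal n := by simp
  refine lt_of_lt_of_le ?_ (single_le_sum (f := fun p : ℕ × ℕ => coeff p.1 f * coeff p.2 g)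
    (fun p _ => mul_nonneg (hf _) (hg _).le) h1)
  simp only [coeff_zero_eq_constantCoeff_apply]
  exact mul_pos hf0 (hg n)

/-- the coefficient of a product, with the constant term of the first factor split off -/
theorem coeff_mul_split (f g : ℝ⟦X⟧) (n : ℕ) : coeff n (f * g) =
    constantCoeff f * coeff n g + ∑ i ∈ range n, coeff (i + 1) f * coeff (n - (i + 1)) g := by
  rw [coeff_mul, Nat.sum_antidiagonal_eq_sum_range_succ (fun i j => coeff i f * coeff j g),
    sum_range_succ', Nat.sub_zero, coeff_zero_eq_constantCoeff_apply, add_comm]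

theorem NN_uu : NN uu := by
  intro n
  induction n using Nat.strong_induction_on with
  | _ n ih =>
    rcases Nat.eq_zero_or_pos n with h0 | h0
    · subst h0; rw [coeff_zero_eq_constantCoeff_apply, cc_uu]; norm_num
    · have h := congrArg (coeff n) th_uu'
      rw [coeff_th, coeff_mul_split] at h
      have h1 : constantCoeff (1 - E2) = 0 := by
        rw [map_sub, map_one, ← coeff_zero_eq_constantCoeff_apply, E2, coeff_mk, if_pos rfl,
          sub_self]
      rw [h1, zero_mul, zero_add] at h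
      have h2 : 0 ≤ ∑ i ∈ range n, coeff (i + 1) (1 - E2) * coeff (n - (i + 1)) uu := by
        refine sum_nonneg fun i hi => mul_nonneg ?_ (ih _ ?_)
        · rw [map_sub, coeff_one, if_neg (by omega), E2, coeff_mk, if_neg (by omega)]
          have : (0 : ℝ) ≤ ((ArithmeticFunction.sigma 1 (i + 1) : ℕ) : ℝ) := Nat.cast_nonneg _
          linarith
        · have := mem_range.1 hi
          omega
      rw [← h] at h2
      have h3 : (0 : ℝ) < n := by exact_mod_cast h0
      exact nonneg_of_mul_nonneg_right h2 h3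

theorem NN_E4 : NN E4 := by
  intro n
  rw [E4, coeff_mk]
  split_ifs
  · norm_num
  · positivity

/-- `1 / E_6` -/
noncomputable def ss : ℝ⟦X⟧ := E6⁻¹

theorem E6_ss : E6 * ss = 1 := PowerSeries.mul_inv_cancel _ (by rw [cc_E6]; norm_num)

theorem cc_ss : constantCoeff ss = 1 := by
  have h := congrArg constantCoeff E6_ss
  rwa [map_mul, cc_E6, map_one, one_mul] at h

theorem sigma_pos' (k : ℕ) {n : ℕ} (hn : n ≠ 0) :
    (0 : ℝ) < ((ArithmeticFunction.sigma k n : ℕ) : ℝ) := by
  exact_mod_cast ArithmeticFunction.sigma_pos k n hn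

theorem pos_ss : ∀ n, 0 < coeff n ss := by
  intro n
  induction n using Nat.strong_induction_on with
  | _ n ih =>
    rcases Nat.eq_zero_or_pos n with h0 | h0
    · subst h0; rw [coeff_zero_eq_constantCoeff_apply, cc_ss]; norm_num
    · have h := congrArg (coeff n) E6_ss
      rw [coeff_mul_split, cc_E6, one_mul, coeff_one, if_neg (by omega)] at h
      have h2 : 0 < ∑ i ∈ range n, -(coeff (i + 1) E6 * coeff (n - (i + 1)) ss) := by
        refine sum_pos (fun i hi => ?_) ⟨0, mem_range.2 h0⟩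
        have hi' := mem_range.1 hi
        have h3 := ih (n - (i + 1)) (by omega)
        rw [E6, coeff_mk, if_neg (by omega)]
        have := sigma_pos' 5 (Nat.succ_ne_zero i)
        have h4 := mul_pos this h3
        nlinarith
      rw [sum_neg_distrib] at h2
      linarith

/-- `Δ / E_6^2` -/
noncomputable def GG : ℝ⟦X⟧ := Dl * ss ^ 2

theorem th_ss : th ss = -(ss ^ 2 * th E6) := by
  have h := congrArg th E6_ss
  rw [th_mul, th_one] at h
  linear_combination ss * h - (th ss) * E6_ss

theorem th_GG : th GG = (E4 ^ 2 * ss) * GG := by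
  rw [GG, th_mul, th_Dl, th_pow2, th_ss]
  linear_combination (-(Dl * ss ^ 3)) * ram6 + (-(E2 * Dl * ss ^ 2)) * E6_ss

theorem cc_GG : constantCoeff GG = 0 := by rw [GG, map_mul, cc_Dl, zero_mul]

theorem coeff_one_GG : coeff 1 GG = 1 := by
  rw [GG, Dl_eq, mul_assoc, show (1 : ℕ) = 0 + 1 by rfl, coeff_succ_X_mul,
    coeff_zero_eq_constantCoeff_apply, map_mul, map_pow, cc_dd, cc_ss]
  norm_num

theorem NN_GG : NN GG := by
  intro n
  induction n using Nat.strong_induction_on with
  | _ n ih =>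
    rcases Nat.eq_zero_or_pos n with h0 | h0
    · subst h0; rw [coeff_zero_eq_constantCoeff_apply, cc_GG]
    · rcases Nat.lt_or_ge n 2 with h1 | h1
      · have : n = 1 := by omega
        subst this
        rw [coeff_one_GG]; norm_num
      · have h := congrArg (coeff n) th_GG
        have hNN : NN (E4 ^ 2 * ss) := (NN_E4.pow 2).mul fun n => (pos_ss n).le
        rw [coeff_th, coeff_mul_split] at h
        have h2 : constantCoeff (E4 ^ 2 * ss) = 1 := by
          rw [map_mul, map_pow, cc_E4, cc_ss]; norm_num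
        rw [h2, one_mul] at h
        have h3 : 0 ≤ ∑ i ∈ range n, coeff (i + 1) (E4 ^ 2 * ss) * coeff (n - (i + 1)) GG := by
          refine sum_nonneg fun i hi => mul_nonneg (hNN _) (ih _ ?_)
          have := mem_range.1 hi
          omega
        have h4 : 0 ≤ ((n : ℝ) - 1) * coeff n GG := by linarith
        have h5 : (0 : ℝ) < (n : ℝ) - 1 := by
          have : (2 : ℝ) ≤ n := by exact_mod_cast h1
          linarith
        exact nonneg_of_mul_nonneg_right h4 h5

/-- `1 / (1 - y Δ / E_6^2)` -/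
noncomputable def TT (y : ℝ) : ℝ⟦X⟧ := (1 - PowerSeries.C y * GG)⁻¹

theorem cc_TT0 (y : ℝ) : constantCoeff (1 - PowerSeries.C y * GG) = 1 := by
  rw [map_sub, map_mul, cc_GG, mul_zero, map_one, sub_zero]

theorem TT_mul (y : ℝ) : (1 - PowerSeries.C y * GG) * TT y = 1 :=
  PowerSeries.mul_inv_cancel _ (by rw [cc_TT0]; norm_num)

theorem cc_TT (y : ℝ) : constantCoeff (TT y) = 1 := by
  have h := congrArg constantCoeff (TT_mul y)
  rwa [map_mul, cc_TT0, map_one, one_mul] at h

theorem NN_TT {y : ℝ} (hy : 0 ≤ y) : NN (TT y) := by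
  intro n
  induction n using Nat.strong_induction_on with
  | _ n ih =>
    rcases Nat.eq_zero_or_pos n with h0 | h0
    · subst h0; rw [coeff_zero_eq_constantCoeff_apply, cc_TT]; norm_num
    · have h : TT y = 1 + PowerSeries.C y * (GG * TT y) := by linear_combination TT_mul y
      rw [h, map_add, coeff_one, if_neg (by omega), coeff_C_mul, coeff_mul_split, cc_GG,
        zero_mul, zero_add, zero_add]
      refine mul_nonneg hy (sum_nonneg fun i hi => mul_nonneg (NN_GG _) (ih _ ?_))
      have := mem_range.1 hi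
      omega

/-! ### The residue formula -/

/-- `1 / (E_4^3 - x Δ)` -/
noncomputable def RR (x : ℝ) : ℝ⟦X⟧ := ss ^ 2 * TT (x - 1728)

theorem RR_mul (x : ℝ) : (E4 ^ 3 - PowerSeries.C x * Dl) * RR x = 1 := by
  have h1 : E4 ^ 3 - PowerSeries.C x * Dl = E6 ^ 2 - PowerSeries.C (x - 1728) * Dl := by
    rw [map_sub, C1728]
    linear_combination -Dl_1728
  have h2 := TT_mul (x - 1728)
  rw [GG] at h2
  rw [h1, RR]
  linear_combination h2 + (E6 * ss + 1) * TT (x - 1728) * E6_ss

theorem cc_RR (x : ℝ) : constantCoeff (RR x) = 1 := by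
  rw [RR, map_mul, map_pow, cc_ss, cc_TT]; norm_num

/-- `E_4^2 E_6 / (E_4^3 - x Δ)` -/
noncomputable def WW (x : ℝ) : ℝ⟦X⟧ := E4 ^ 2 * E6 * RR x

theorem cc_WW (x : ℝ) : constantCoeff (WW x) = 1 := by
  rw [WW, map_mul, map_mul, map_pow, cc_E4, cc_E6, cc_RR]; norm_num

theorem Dl_uu : Dl * uu = X := by
  rw [Dl_eq]; linear_combination X * dd_uu

theorem JJ_WW (x : ℝ) : JJ * WW x = (JJ - th JJ) + X * (PowerSeries.C x * WW x) := by
  rw [JJ_th, JJ, WW]
  linear_combination (uu * E4 ^ 2 * E6) * RR_mul x +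
    (PowerSeries.C x * E4 ^ 2 * E6 * RR x) * Dl_uu

theorem coeff_JJ (i : ℕ) : coeff (i + 1) (JJ ^ i * (JJ - th JJ)) = 0 := by
  rw [mul_sub, map_sub, ← pow_succ]
  have h2 := congrArg (coeff (i + 1)) (th_pow JJ i)
  have h5 : (((i + 1 : ℕ)) : ℝ⟦X⟧) = PowerSeries.C (((i + 1 : ℕ)) : ℝ) :=
    (map_natCast PowerSeries.C _).symm
  rw [coeff_th, mul_assoc, h5, coeff_C_mul] at h2
  have h3 : ((i + 1 : ℕ) : ℝ) ≠ 0 := by positivity
  have h4 := mul_left_cancel₀ h3 h2
  rw [h4, sub_self]

/-- **the residue formula** -/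
theorem coeff_JJ_WW (x : ℝ) (i : ℕ) : coeff i (JJ ^ i * WW x) = x ^ i := by
  induction i with
  | zero => rw [pow_zero, one_mul, coeff_zero_eq_constantCoeff_apply, cc_WW, pow_zero]
  | succ i ih =>
    have h : JJ ^ (i + 1) * WW x = JJ ^ i * (JJ - th JJ) + X * (PowerSeries.C x *
        (JJ ^ i * WW x)) := by
      rw [pow_succ, mul_assoc, JJ_WW]; ring
    rw [h, map_add, coeff_JJ, zero_add, coeff_succ_X_mul, coeff_C_mul, ih]
    ring

/-! ### The Faber polynomials -/

/-- the form with the coefficients `c` -/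
noncomputable def frm (a b l : ℕ) (c : ℕ → ℝ) (D : ℕ) : ℝ⟦X⟧ :=
  ∑ i ∈ range (D + 1), PowerSeries.C (c i) * (E4 ^ a * E6 ^ b * (E4 ^ (3 * i) * Dl ^ (l - i)))

theorem frm_eq {a b l D : ℕ} (hD : D ≤ l) (c : ℕ → ℝ) :
    frm a b l c D = X ^ (l - D) * dd ^ l * (E4 ^ a * E6 ^ b *
      ∑ i ∈ range (D + 1), PowerSeries.C (c i) * (X ^ (D - i) * JJ ^ i)) := by
  rw [frm, mul_sum, mul_sum]
  refine sum_congr rfl fun i hi => ?_
  have hi' := mem_range.1 hi
  have h1 : dd ^ l = dd ^ (l - i) * dd ^ i := by rw [← pow_add]; congr 1; omega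
  have h2 : (X : ℝ⟦X⟧) ^ (l - i) = X ^ (l - D) * X ^ (D - i) := by
    rw [← pow_add]; congr 1; omega
  have h3 : dd ^ i * uu ^ i = 1 := by rw [← mul_pow, dd_uu, one_pow]
  rw [Dl_eq, mul_pow, h2, JJ, mul_pow, h1, pow_mul]
  linear_combination (-(PowerSeries.C (c i) * (E4 ^ a * E6 ^ b) * (E4 ^ 3) ^ i * X ^ (l - D) *
    X ^ (D - i) * dd ^ (l - i))) * h3

theorem faber_value {a b l D : ℕ} (ha : a ≤ 2) (hb : b ≤ 1) (hD : D ≤ l) (c : ℕ → ℝ)
    (hf : ∀ n ≤ l, coeff n (frm a b l c D) = if n = l - D then 1 else 0) (x : ℝ) :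
    ∑ i ∈ range (D + 1), c i * x ^ i =
      coeff D (uu ^ l * (E4 ^ (2 - a) * E6 ^ (1 - b) * RR x)) := by
  set K : ℝ⟦X⟧ := uu ^ l * (E4 ^ (2 - a) * E6 ^ (1 - b) * RR x) with hK
  -- the coefficient of `X ^ l` of `K * frm`
  have h1 : coeff l (K * frm a b l c D) = coeff D K := by
    rw [coeff_mul]
    have hmem : (D, l - D) ∈ antidiagonal l := by
      rw [HasAntidiagonal.mem_antidiagonal]; exact Nat.add_sub_of_le hD
    rw [sum_eq_single_of_mem (D, l - D) hmem]
    · simp only
      rw [hf (l - D) (by omega), if_pos rfl, mul_one]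
    · rintro ⟨p, q⟩ hpq hne
      simp only
      rw [HasAntidiagonal.mem_antidiagonal] at hpq
      simp only at hpq
      rw [hf q (by omega), if_neg, mul_zero]
      intro hq
      apply hne
      rw [Prod.mk.injEq]
      omega
  have h2 : K * frm a b l c D = X ^ (l - D) *
      ∑ i ∈ range (D + 1), PowerSeries.C (c i) * (X ^ (D - i) * (JJ ^ i * WW x)) := by
    have h4 : uu ^ l * dd ^ l = 1 := by rw [← mul_pow, mul_comm, dd_uu, one_pow]
    have h5 : ∑ i ∈ range (D + 1), PowerSeries.C (c i) * (X ^ (D - i) * (JJ ^ i * WW x)) =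
        WW x * ∑ i ∈ range (D + 1), PowerSeries.C (c i) * (X ^ (D - i) * JJ ^ i) := by
      rw [mul_sum]
      refine sum_congr rfl fun i _ => ?_
      ring
    have h6 : E4 ^ 2 = E4 ^ (2 - a) * E4 ^ a := by rw [← pow_add]; congr 1; omega
    have h7 : E6 = E6 ^ (1 - b) * E6 ^ b := by
      rw [← pow_add, show 1 - b + b = 1 by omega, pow_one]
    have h8 : WW x = E4 ^ (2 - a) * E4 ^ a * (E6 ^ (1 - b) * E6 ^ b) * RR x := by
      rw [← h7, ← h6, WW]
    rw [h5, h8, frm_eq hD, hK]
    linear_combination (E4 ^ (2 - a) * E4 ^ a * (E6 ^ (1 - b) * E6 ^ b) * RR x * X ^ (l - D) *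
      ∑ i ∈ range (D + 1), PowerSeries.C (c i) * (X ^ (D - i) * JJ ^ i)) * h4
  rw [← h1, h2]
  have h12 := coeff_mul_X_pow
    (∑ i ∈ range (D + 1), PowerSeries.C (c i) * (X ^ (D - i) * (JJ ^ i * WW x))) (l - D) D
  rw [show D + (l - D) = l by omega] at h12
  rw [mul_comm, h12, map_sum]
  refine sum_congr rfl fun i hi => ?_
  have hi' := mem_range.1 hi
  rw [coeff_C_mul]
  have h10 : coeff D (X ^ (D - i) * (JJ ^ i * WW x)) = coeff i (JJ ^ i * WW x) := by
    have := coeff_mul_X_pow (JJ ^ i * WW x) (D - i) i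
    rw [show i + (D - i) = D by omega] at this
    rw [mul_comm]; exact this
  rw [h10, coeff_JJ_WW]

/-- **The Faber polynomials are positive on `[1728, ∞)`.** -/
theorem faber_pos {a b l D : ℕ} (ha : a ≤ 2) (hb : b ≤ 1) (hD : D ≤ l) (c : ℕ → ℝ)
    (hf : ∀ n ≤ l, coeff n (frm a b l c D) = if n = l - D then 1 else 0) {x : ℝ}
    (hx : 1728 ≤ x) : 0 < ∑ i ∈ range (D + 1), c i * x ^ i := by
  rw [faber_value ha hb hD c hf x]
  have h1 : uu ^ l * (E4 ^ (2 - a) * E6 ^ (1 - b) * RR x) =
      (uu ^ l * E4 ^ (2 - a) * ss ^ b * TT (x - 1728)) * ss := by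
    rw [RR]
    interval_cases b
    · rw [pow_zero]
      simp only [Nat.sub_zero, pow_one]
      linear_combination (uu ^ l * E4 ^ (2 - a) * ss * TT (x - 1728)) * E6_ss
    · simp only [Nat.sub_self, pow_zero, pow_one]
      ring
  rw [h1]
  apply pos_mul
  · exact (((NN_uu.pow l).mul (NN_E4.pow _)).mul
      (NN.pow (fun n => (pos_ss n).le) b)).mul (NN_TT (by linarith))
  · rw [map_mul, map_mul, map_mul, map_pow, map_pow, map_pow, cc_uu, cc_E4, cc_ss, cc_TT]
    norm_num
  · exact pos_ss

theorem coeff_base {a b l i : ℕ} (hi : i ≤ l) (n : ℕ) (hn : n ≤ l - i) :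
    coeff n (E4 ^ a * E6 ^ b * (E4 ^ (3 * i) * Dl ^ (l - i))) = if n = l - i then 1 else 0 := by
  rw [Dl_eq, mul_pow]
  have h1 : E4 ^ a * E6 ^ b * (E4 ^ (3 * i) * (X ^ (l - i) * dd ^ (l - i))) =
      (E4 ^ a * E6 ^ b * (E4 ^ (3 * i) * dd ^ (l - i))) * X ^ (l - i) := by ring
  rw [h1, coeff_mul_X_pow']
  rcases Nat.lt_or_ge n (l - i) with h2 | h2
  · rw [if_neg (by omega), if_neg (by omega)]
  · have h3 : n = l - i := by omega
    rw [if_pos h2, if_pos h3, h3, Nat.sub_self, coeff_zero_eq_constantCoeff_apply, map_mul, map_mul,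
      map_mul, map_pow, map_pow, map_pow, map_pow, cc_E4, cc_E6, cc_dd]
    simp

/-- existence of the Faber polynomials -/
theorem exists_c (a b l : ℕ) : ∀ D ≤ l, ∃ c : ℕ → ℝ, c D = 1 ∧ (∀ i, D < i → c i = 0) ∧
    ∀ n ≤ l, coeff n (frm a b l c D) = if n = l - D then 1 else 0 := by
  intro D
  induction D using Nat.strong_induction_on with
  | _ D ih =>
    intro hD
    choose! c h1 h2 h3 using ih
    set e : ℕ → ℝ := fun E => coeff (l - E) (E4 ^ a * E6 ^ b * (E4 ^ (3 * D) * Dl ^ (l - D)))
      with he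
    refine ⟨fun i => (if i = D then 1 else 0) - ∑ E ∈ range D, e E * c E i, ?_, ?_, ?_⟩
    · simp only [if_true]
      rw [sum_eq_zero, sub_zero]
      intro E hE
      have hE' := mem_range.1 hE
      rw [h2 E hE' (by omega) D hE', mul_zero]
    · intro i hi
      simp only
      rw [if_neg (by omega), sum_eq_zero, sub_zero]
      intro E hE
      have hE' := mem_range.1 hE
      rw [h2 E hE' (by omega) i (by omega), mul_zero]
    · intro n hn
      have e1 : frm a b l (fun i => (if i = D then 1 else 0) - ∑ E ∈ range D, e E * c E i) D =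
          E4 ^ a * E6 ^ b * (E4 ^ (3 * D) * Dl ^ (l - D)) -
            ∑ E ∈ range D, PowerSeries.C (e E) * frm a b l (c E) E := by
        have e2 : ∀ E ∈ range D, frm a b l (c E) E = ∑ i ∈ range (D + 1),
            PowerSeries.C (c E i) * (E4 ^ a * E6 ^ b * (E4 ^ (3 * i) * Dl ^ (l - i))) := by
          intro E hE
          have hE' := mem_range.1 hE
          rw [frm]
          refine sum_subset (fun i hi => ?_) (fun i _ hi => ?_)
          · rw [mem_range] at hi ⊢; omega
          · rw [mem_range] at hi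
            rw [h2 E hE' (by omega) i (by omega), map_zero, zero_mul]
        rw [sum_congr rfl (fun E hE => by rw [e2 E hE])]
        simp_rw [mul_sum]
        rw [sum_comm, frm]
        have e3 : E4 ^ a * E6 ^ b * (E4 ^ (3 * D) * Dl ^ (l - D)) = ∑ i ∈ range (D + 1),
            PowerSeries.C (if i = D then (1 : ℝ) else 0) *
              (E4 ^ a * E6 ^ b * (E4 ^ (3 * i) * Dl ^ (l - i))) := by
          rw [sum_eq_single D]
          · rw [if_pos rfl, map_one, one_mul]
          · intro i _ hi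
            rw [if_neg hi, map_zero, zero_mul]
          · intro h
            exact absurd (mem_range.2 (Nat.lt_succ_self D)) h
        rw [e3, ← sum_sub_distrib]
        refine sum_congr rfl fun i _ => ?_
        rw [map_sub, map_sum, sub_mul, sum_mul]
        congr 1
        refine sum_congr rfl fun E _ => ?_
        rw [map_mul]; ring
      rw [e1, map_sub, map_sum]
      have e4 : ∑ E ∈ range D, coeff n (PowerSeries.C (e E) * frm a b l (c E) E) =
          ∑ E ∈ range D, if n = l - E then e E else 0 := by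
        refine sum_congr rfl fun E hE => ?_
        have hE' := mem_range.1 hE
        rw [coeff_C_mul, h3 E hE' (by omega) n hn]
        split_ifs <;> simp
      rw [e4]
      rcases Nat.lt_or_ge (l - D) n with h5 | h5
      · rw [if_neg (by omega), sum_eq_single (l - n)]
        · rw [if_pos (by omega), he]
          simp only
          rw [show l - (l - n) = n by omega, sub_self]
        · intro E hE hEn
          have hE' := mem_range.1 hE
          rw [if_neg (by omega)]
        · intro h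
          rw [mem_range] at h
          omega
      · rw [coeff_base hD n h5, sum_eq_zero, sub_zero]
        intro E hE
        have hE' := mem_range.1 hE
        rw [if_neg (by omega)]

end Pool.Agent.Q17.Mil.R
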