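import Mathlib
import Pool.Agent.Y949.J.Ram
import Pool.Agent.TH21.MS.JFun

/-!
# The modular invariant: surjectivity, and its values on the arc
-/

set_option autoImplicit false

open Filter Topology UpperHalfPlane ModularForm EisensteinSeries Complex MatrixGroups

namespace Pool.Agent.Q17.Mil


/-- `E_4^3 - x discriminant` as a modular form -/
noncomputable def gx (x : ℂ) : ModularForm 𝒮ℒ 12 :=
  ModularForm.mcast (by decide) (E₄.pow 3) - x • (CuspForm.toModularFormₗ CuspForm.discriminant)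

theorem gx_apply (x : ℂ) (z : ℍ) : gx x z = E₄ z ^ 3 - x * discriminant z := by
  rw [gx]
  simp only [coe_mcast, coe_pow, sub_apply, Pi.pow_apply]
  rfl

theorem tendsto_gx (x : ℂ) : Tendsto (gx x) atImInfty (𝓝 1) := by
  have h1 := (Pool.Agent.Y949.J.tendsto_E4.pow 3).sub
    ((discriminant_isZeroAtImInfty : Tendsto discriminant atImInfty (𝓝 0)).const_mul x)
  rw [one_pow, mul_zero, sub_zero] at h1
  refine h1.congr fun z => ?_
  rw [gx_apply]

/-- **surjectivity of `j`** -/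
theorem exists_j (x : ℂ) : ∃ z : ℍ, E₄ z ^ 3 = x * discriminant z := by
  by_contra hcon
  push Not at hcon
  have hg : ∀ z, gx x z ≠ 0 := fun z h => hcon z (by rw [gx_apply] at h; exact sub_eq_zero.1 h)
  have hsl : ∀ γ : SL(2, ℤ), (fun z => discriminant z / gx x z) ∣[(0 : ℤ)] γ = fun z => discriminant z / gx x z := by
    intro γ
    have h1 : (⇑CuspForm.discriminant / ⇑(gx x)) ∣[(12 : ℤ) - 12] γ =
        ⇑CuspForm.discriminant / ⇑(gx x) := by
      rw [div_slash_SL2]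
      have h2 := CuspForm.discriminant.slash_action_eq' _ (⟨γ, rfl⟩ : (γ : GL (Fin 2) ℝ) ∈ 𝒮ℒ)
      have h3 := (gx x).slash_action_eq' _ (⟨γ, rfl⟩ : (γ : GL (Fin 2) ℝ) ∈ 𝒮ℒ)
      congr 1
    rw [sub_self] at h1
    exact h1
  have hbd : IsBoundedAtImInfty (fun z => discriminant z / gx x z) := by
    have h1 : Tendsto (fun z => discriminant z / gx x z) atImInfty (𝓝 (0 / 1)) :=
      (discriminant_isZeroAtImInfty : Tendsto discriminant atImInfty (𝓝 0)).div (tendsto_gx x) one_ne_zero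
    exact h1.isBigO_one ℝ
  let hh : ModularForm 𝒮ℒ 0 :=
    { toFun z := discriminant z / gx x z
      slash_action_eq' := fun _ ⟨γ, hγ⟩ ↦ hγ ▸ hsl γ
      holo' := CuspForm.discriminant.holo'.div (gx x).holo' hg
      bdd_at_cusps' {c} hc := by
        rw [Subgroup.IsArithmetic.isCusp_iff_isCusp_SL2Z] at hc
        rw [OnePoint.isBoundedAt_iff_forall_SL2Z hc]
        intro γ _
        rw [hsl γ]
        exact hbd }
  obtain ⟨c, hc⟩ := ModularFormClass.levelOne_weight_zero_const hh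
  have h1 : Tendsto (fun z => discriminant z / gx x z) atImInfty (𝓝 (0 / 1)) :=
    (discriminant_isZeroAtImInfty : Tendsto discriminant atImInfty (𝓝 0)).div (tendsto_gx x) one_ne_zero
  have h2 : (fun z => discriminant z / gx x z) = fun _ => c := hc
  rw [h2, zero_div] at h1
  have h3 : c = 0 := tendsto_nhds_unique tendsto_const_nhds h1
  have h4 := congrFun h2 UpperHalfPlane.I
  simp only [h3] at h4
  exact div_ne_zero (discriminant_ne_zero _) (hg _) h4

/-! ### Values on the arc -/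

open Pool.Agent.TH21.MS (jj)

theorem jj_eq (z : ℍ) : jj z = E₄ z ^ 3 / discriminant z := by
  rw [jj, Pool.Agent.TH21.MS.E4_eq, Pool.Agent.TH21.MS.E6_eq, discriminant_eq_E₄_cube_sub_E₆_sq]
  have h : (E₄ z ^ 3 - E₆ z ^ 2) ≠ 0 := by
    rw [← Pool.Agent.TH21.MS.E4_eq, ← Pool.Agent.TH21.MS.E6_eq]
    exact Pool.Agent.TH21.MS.disc_ne z
  field_simp

theorem exp_neg_conj (w : ℂ) :
    Complex.exp (2 * (Real.pi : ℂ) * Complex.I * (-(starRingEnd ℂ) w)) =
      (starRingEnd ℂ) (Complex.exp (2 * (Real.pi : ℂ) * Complex.I * w)) := by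
  rw [← Complex.exp_conj]
  congr 1
  simp [map_mul, map_ofNat (starRingEnd ℂ)]

theorem E4_conj (w : ℂ) : Pool.Agent.TH21.MS.E4 (-(starRingEnd ℂ) w) =
    (starRingEnd ℂ) (Pool.Agent.TH21.MS.E4 w) := by
  unfold Pool.Agent.TH21.MS.E4
  rw [exp_neg_conj, map_add, map_mul, Complex.conj_tsum]
  simp [map_ofNat (starRingEnd ℂ)]

theorem E6_conj (w : ℂ) : Pool.Agent.TH21.MS.E6 (-(starRingEnd ℂ) w) =
    (starRingEnd ℂ) (Pool.Agent.TH21.MS.E6 w) := by
  unfold Pool.Agent.TH21.MS.E6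
  rw [exp_neg_conj, map_sub, map_mul, Complex.conj_tsum]
  simp [map_ofNat (starRingEnd ℂ)]

theorem jj_conj (w : ℂ) : jj (-(starRingEnd ℂ) w) = (starRingEnd ℂ) (jj w) := by
  unfold jj
  rw [E4_conj, E6_conj]
  simp [map_ofNat (starRingEnd ℂ)]

/-- `j` is real on the unit circle -/
theorem jj_real {z : ℍ} (hz : ‖(z : ℂ)‖ = 1) : (jj z).im = 0 := by
  have h1 := Pool.Agent.TH21.MS.jj_S z
  have h2 : ((ModularGroup.S • z : ℍ) : ℂ) = -(starRingEnd ℂ) (z : ℂ) := by
    rw [UpperHalfPlane.modular_S_smul]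
    simp only
    rw [inv_neg, neg_inj, Complex.inv_def, Complex.normSq_eq_norm_sq, hz]
    simp
  rw [h2, jj_conj] at h1
  exact Complex.conj_eq_iff_im.1 h1

theorem im_pow_le (q : ℂ) (n : ℕ) : |(q ^ (n + 1)).im| ≤ (n + 1) * ‖q‖ ^ n * |q.im| := by
  induction n with
  | zero => simp
  | succ n ih =>
    have h1 : (q ^ (n + 1 + 1)).im = (q ^ (n + 1)).re * q.im + (q ^ (n + 1)).im * q.re := by
      rw [pow_succ q (n + 1), Complex.mul_im]
    have h2 : |(q ^ (n + 1)).re| ≤ ‖q‖ ^ (n + 1) := by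
      have := Complex.abs_re_le_norm (q ^ (n + 1))
      rwa [norm_pow] at this
    have h3 : |q.re| ≤ ‖q‖ := Complex.abs_re_le_norm q
    rw [h1]
    calc |(q ^ (n + 1)).re * q.im + (q ^ (n + 1)).im * q.re|
        ≤ |(q ^ (n + 1)).re| * |q.im| + |(q ^ (n + 1)).im| * |q.re| := by
          rw [← abs_mul, ← abs_mul]; exact abs_add_le _ _
      _ ≤ ‖q‖ ^ (n + 1) * |q.im| + ((n + 1) * ‖q‖ ^ n * |q.im|) * ‖q‖ := by
          gcongr
      _ = ((n + 1 : ℕ) + 1) * ‖q‖ ^ (n + 1) * |q.im| := by push_cast; ring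

theorem succ_le_two_pow (m : ℕ) : m + 1 ≤ 2 ^ m := Nat.lt_two_pow_self

theorem sigma3_le (m : ℕ) : ArithmeticFunction.sigma 3 (m + 1) ≤ (m + 1) ^ 4 := by
  rw [ArithmeticFunction.sigma_apply]
  calc ∑ d ∈ (m + 1).divisors, d ^ 3 ≤ ∑ _d ∈ (m + 1).divisors, (m + 1) ^ 3 :=
        Finset.sum_le_sum fun d hd => Nat.pow_le_pow_left (Nat.divisor_le hd) 3
    _ = (m + 1).divisors.card * (m + 1) ^ 3 := by rw [Finset.sum_const, smul_eq_mul]
    _ ≤ (m + 1) * (m + 1) ^ 3 := Nat.mul_le_mul_right _ (Nat.card_divisors_le_self _)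
    _ = (m + 1) ^ 4 := by ring

/-- `E_4` does not vanish for `-1/2 < x < 0`, `y ≥ √3/2` -/
theorem E4_ne {w : ℂ} (h1 : -(1 / 2) < w.re) (h2 : w.re < 0) (h3 : √3 / 2 ≤ w.im) :
    Pool.Agent.TH21.MS.E4 w ≠ 0 := by
  set q : ℂ := Complex.exp (2 * (Real.pi : ℂ) * Complex.I * w) with hq
  have harg : (2 * (Real.pi : ℂ) * Complex.I * w) =
      ((-(2 * Real.pi * w.im) : ℝ) : ℂ) + ((2 * Real.pi * w.re : ℝ) : ℂ) * Complex.I := by
    apply Complex.ext <;> simp
  have hqn : ‖q‖ = Real.exp (-(2 * Real.pi * w.im)) := by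
    rw [hq, Complex.norm_exp, harg]
    simp
  have hqi : q.im = Real.exp (-(2 * Real.pi * w.im)) * Real.sin (2 * Real.pi * w.re) := by
    rw [hq, harg, Complex.exp_im]
    simp
  have hsin : Real.sin (2 * Real.pi * w.re) < 0 := by
    apply Real.sin_neg_of_neg_of_neg_pi_lt
    · nlinarith [Real.pi_pos]
    · nlinarith [Real.pi_pos]
  have hqi0 : q.im < 0 := by
    rw [hqi]; exact mul_neg_of_pos_of_neg (Real.exp_pos _) hsin
  have hr : ‖q‖ ≤ 1 / 100 := by
    rw [hqn]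
    have h4 : (17 / 10 : ℝ) ≤ √3 := by
      apply Real.le_sqrt_of_sq_le; norm_num
    have h5 : (5 : ℝ) ≤ 2 * Real.pi * w.im := by
      have := Real.pi_gt_three
      nlinarith
    calc Real.exp (-(2 * Real.pi * w.im)) ≤ Real.exp (-5) := Real.exp_le_exp.2 (by linarith)
      _ = (Real.exp 1 ^ 5)⁻¹ := by rw [← Real.exp_nat_mul, ← Real.exp_neg]; norm_num
      _ ≤ ((27 / 10 : ℝ) ^ 5)⁻¹ := by
          apply inv_anti₀ (by norm_num)
          gcongr
          have := Real.exp_one_gt_d9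
          linarith
      _ ≤ 1 / 100 := by norm_num
  have hr1 : ‖q‖ < 1 := by linarith
  -- the terms
  set f : ℕ → ℂ := fun m => ((ArithmeticFunction.sigma 3 (m + 1) : ℕ) : ℂ) * q ^ (m + 1) with hf
  have hpow : ∀ m : ℕ, ((m + 1 : ℕ) : ℝ) ^ 5 * ‖q‖ ^ m ≤ (1 / 3) ^ m := by
    intro m
    have h4 : ((m + 1 : ℕ) : ℝ) ≤ 2 ^ m := by exact_mod_cast succ_le_two_pow m
    calc ((m + 1 : ℕ) : ℝ) ^ 5 * ‖q‖ ^ m ≤ (2 ^ m) ^ 5 * (1 / 100) ^ m := by
          gcongr
      _ = (32 / 100) ^ m := by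
          rw [← pow_mul, mul_comm m 5, pow_mul, ← mul_pow]; norm_num
      _ ≤ (1 / 3) ^ m := pow_le_pow_left₀ (by norm_num) (by norm_num) m
  have hs3 : ∀ m : ℕ, ((ArithmeticFunction.sigma 3 (m + 1) : ℕ) : ℝ) ≤ ((m + 1 : ℕ) : ℝ) ^ 4 :=
    fun m => by exact_mod_cast sigma3_le m
  have hfn : ∀ m, ‖f m‖ ≤ (1 / 3) ^ m := by
    intro m
    rw [hf]
    simp only
    rw [norm_mul, norm_pow, Complex.norm_natCast]
    calc ((ArithmeticFunction.sigma 3 (m + 1) : ℕ) : ℝ) * ‖q‖ ^ (m + 1)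
        ≤ ((m + 1 : ℕ) : ℝ) ^ 5 * ‖q‖ ^ m := by
          have h6 : ((m + 1 : ℕ) : ℝ) ^ 4 ≤ ((m + 1 : ℕ) : ℝ) ^ 5 :=
            pow_le_pow_right₀ (by exact_mod_cast Nat.succ_le_succ (Nat.zero_le m)) (by norm_num)
          have h7 : ‖q‖ ^ (m + 1) ≤ ‖q‖ ^ m :=
            pow_le_pow_of_le_one (norm_nonneg _) hr1.le (Nat.le_succ m)
          exact mul_le_mul ((hs3 m).trans h6) h7 (by positivity) (by positivity)
      _ ≤ (1 / 3) ^ m := hpow m
  have hsum : Summable f := Summable.of_norm_bounded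
    (summable_geometric_of_lt_one (by norm_num) (by norm_num : (1 / 3 : ℝ) < 1)) hfn
  have him : ∀ m, |(f m).im| ≤ (1 / 3) ^ m * |q.im| := by
    intro m
    rw [hf]
    simp only
    rw [show (((ArithmeticFunction.sigma 3 (m + 1) : ℕ) : ℂ) * q ^ (m + 1)).im =
      ((ArithmeticFunction.sigma 3 (m + 1) : ℕ) : ℝ) * (q ^ (m + 1)).im by
        rw [Complex.mul_im]; simp, abs_mul, abs_of_nonneg (by positivity)]
    calc ((ArithmeticFunction.sigma 3 (m + 1) : ℕ) : ℝ) * |(q ^ (m + 1)).im|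
        ≤ ((m + 1 : ℕ) : ℝ) ^ 4 * ((m + 1) * ‖q‖ ^ m * |q.im|) :=
          mul_le_mul (hs3 m) (im_pow_le q m) (abs_nonneg _) (by positivity)
      _ = (((m + 1 : ℕ) : ℝ) ^ 5 * ‖q‖ ^ m) * |q.im| := by push_cast; ring
      _ ≤ (1 / 3) ^ m * |q.im| := by gcongr; exact hpow m
  have hsi : Summable fun m => (f m).im := (Complex.hasSum_iff _ _).1 hsum.hasSum |>.2.summable
  have htot : (∑' m, f m).im = ∑' m, (f m).im := Complex.im_tsum hsum
  have hsplit : ∑' m, (f m).im = (f 0).im + ∑' m, (f (m + 1)).im := hsi.tsum_eq_zero_add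
  have hf0 : (f 0).im = q.im := by rw [hf]; simp
  have hg : Summable fun m : ℕ => (1 / 3 : ℝ) ^ (m + 1) * |q.im| :=
    ((summable_nat_add_iff 1).2
      (summable_geometric_of_lt_one (by norm_num) (by norm_num : (1 / 3 : ℝ) < 1))).mul_right _
  have htail : |∑' m, (f (m + 1)).im| ≤ 1 / 2 * |q.im| := by
    have h5 : ‖∑' m, (f (m + 1)).im‖ ≤ ∑' m : ℕ, (1 / 3 : ℝ) ^ (m + 1) * |q.im| :=
      tsum_of_norm_bounded hg.hasSum fun m => him (m + 1)
    rw [Real.norm_eq_abs] at h5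
    refine h5.trans (le_of_eq ?_)
    rw [tsum_mul_right]
    congr 1
    have h6 := tsum_geometric_of_lt_one (by norm_num) (by norm_num : (1 / 3 : ℝ) < 1)
    have h7 := (summable_geometric_of_lt_one (by norm_num)
      (by norm_num : (1 / 3 : ℝ) < 1)).tsum_eq_zero_add
    rw [h6] at h7
    norm_num at h7 ⊢
    linarith
  intro h0
  have h8 := congrArg Complex.im h0
  rw [Pool.Agent.TH21.MS.E4] at h8
  change (1 + 240 * ∑' m, f m).im = (0 : ℂ).im at h8
  rw [Complex.add_im, Complex.mul_im] at h8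
  simp only [Complex.one_im, Complex.zero_im] at h8
  rw [show (240 : ℂ).re = 240 by norm_num, show (240 : ℂ).im = 0 by norm_num, htot, hsplit,
    hf0] at h8
  rw [abs_of_neg hqi0] at htail
  have h9 := abs_le.1 htail
  nlinarith [h9.1, h9.2]

/-! ### The arc -/

/-- the point `e^{iθ}` -/
noncomputable def pt (θ : ℝ) : ℂ := Complex.exp (θ * Complex.I)

theorem pt_re (θ : ℝ) : (pt θ).re = Real.cos θ := by rw [pt, Complex.exp_ofReal_mul_I_re]
theorem pt_im (θ : ℝ) : (pt θ).im = Real.sin θ := by rw [pt, Complex.exp_ofReal_mul_I_im]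

theorem pt_norm (θ : ℝ) : ‖pt θ‖ = 1 := by rw [pt, Complex.norm_exp_ofReal_mul_I]

/-- `E_6(i) = 0` -/
theorem E6_I : E₆ UpperHalfPlane.I = 0 := by
  have h1 := Pool.Agent.TH21.MS.S_inv6 UpperHalfPlane.I
  have h2 : (ModularGroup.S • UpperHalfPlane.I : ℍ) = UpperHalfPlane.I := by
    apply UpperHalfPlane.ext
    rw [UpperHalfPlane.modular_S_smul]
    simp
  rw [h2] at h1
  have h3 : ((UpperHalfPlane.I : ℍ) : ℂ) ^ 6 = -1 := by
    rw [UpperHalfPlane.coe_I]
    rw [show (6 : ℕ) = 4 + 2 by norm_num, pow_add, Complex.I_pow_four, Complex.I_sq]; ring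
  rw [h3] at h1
  linear_combination (1 / 2 : ℂ) * h1

theorem jj_I : jj (UpperHalfPlane.I : ℍ) = 1728 := by
  have h1 := Pool.Agent.TH21.MS.disc_ne UpperHalfPlane.I
  unfold jj
  rw [Pool.Agent.TH21.MS.E6_eq, E6_I] at h1 ⊢
  rw [zero_pow (by norm_num), sub_zero] at h1 ⊢
  rw [mul_div_assoc, div_self h1, mul_one]

/-- no point of the arc has a negative real `j`-invariant -/
theorem arc_nonneg {θ : ℝ} (h1 : Real.pi / 2 ≤ θ) (h2 : θ ≤ 2 * Real.pi / 3) {z : ℍ}
    (hz : (z : ℂ) = pt θ) : 0 ≤ (jj z).re := by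
  by_contra hcon
  push Not at hcon
  have hpi := Real.pi_pos
  -- continuity
  have hsin : ∀ t ∈ Set.Icc (Real.pi / 2) θ, 0 < (pt t).im := by
    intro t ht
    rw [pt_im]
    exact Real.sin_pos_of_pos_of_lt_pi (by linarith [ht.1]) (by linarith [ht.2])
  have hcont : ContinuousOn (fun t => (jj (pt t)).re) (Set.Icc (Real.pi / 2) θ) := by
    refine Complex.continuous_re.comp_continuousOn ?_
    have hj : ContinuousOn jj {w : ℂ | 0 < w.im} := by
      have h4 : ContinuousOn (fun w : ℂ => E₄ (ofComplex w)) {w : ℂ | 0 < w.im} :=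
        ((mdifferentiable_iff).1 (ModularFormClass.holo E₄)).continuousOn
      have h6 : ContinuousOn (fun w : ℂ => E₆ (ofComplex w)) {w : ℂ | 0 < w.im} :=
        ((mdifferentiable_iff).1 (ModularFormClass.holo E₆)).continuousOn
      have h7 : ContinuousOn (fun w : ℂ => 1728 * E₄ (ofComplex w) ^ 3 /
          (E₄ (ofComplex w) ^ 3 - E₆ (ofComplex w) ^ 2)) {w : ℂ | 0 < w.im} := by
        refine ContinuousOn.div (continuousOn_const.mul (h4.pow 3)) ((h4.pow 3).sub (h6.pow 2)) ?_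
        intro w _
        have := Pool.Agent.TH21.MS.disc_ne (ofComplex w)
        rwa [Pool.Agent.TH21.MS.E4_eq, Pool.Agent.TH21.MS.E6_eq] at this
      refine h7.congr fun w hw => ?_
      have e1 : ((ofComplex w : ℍ) : ℂ) = w := by
        rw [ofComplex_apply_of_im_pos hw]
      simp only
      rw [← Pool.Agent.TH21.MS.E4_eq, ← Pool.Agent.TH21.MS.E6_eq, e1]
      rfl
    refine hj.comp ?_ hsin
    unfold pt
    fun_prop
  have hreal : ∀ t ∈ Set.Icc (Real.pi / 2) θ, (jj (pt t)).im = 0 := by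
    intro t ht
    exact jj_real (z := ⟨pt t, hsin t ht⟩) (pt_norm t)
  have hI : (jj (pt (Real.pi / 2))).re = 1728 := by
    have e1 : pt (Real.pi / 2) = ((UpperHalfPlane.I : ℍ) : ℂ) := by
      apply Complex.ext
      · rw [pt_re]; simp
      · rw [pt_im]; simp
    rw [e1, jj_I]; norm_num
  have hθ : (jj (pt θ)).re < 0 := by rw [← hz]; exact hcon
  have hivt := intermediate_value_Icc' h1 hcont
  obtain ⟨t, ht, ht0⟩ := hivt (show (0 : ℝ) ∈ Set.Icc (jj (pt θ)).re (jj (pt (Real.pi / 2))).re from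
    ⟨hθ.le, by rw [hI]; norm_num⟩)
  simp only at ht0
  have hj0 : jj (pt t) = 0 := Complex.ext ht0 (hreal t ht)
  have ht1 : Real.pi / 2 < t := by
    rcases eq_or_lt_of_le ht.1 with h | h
    · rw [← h, hI] at ht0; norm_num at ht0
    · exact h
  have ht2 : t < 2 * Real.pi / 3 := by
    rcases eq_or_lt_of_le ht.2 with h | h
    · rw [h] at ht0; rw [ht0] at hθ; exact absurd hθ (lt_irrefl _)
    · linarith
  -- `E_4` vanishes at `pt t`
  have hE : Pool.Agent.TH21.MS.E4 (pt t) = 0 := by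
    have hd := Pool.Agent.TH21.MS.disc_ne ⟨pt t, hsin t ht⟩
    change Pool.Agent.TH21.MS.E4 (pt t) ^ 3 - Pool.Agent.TH21.MS.E6 (pt t) ^ 2 ≠ 0 at hd
    unfold jj at hj0
    rw [div_eq_zero_iff] at hj0
    rcases hj0 with h | h
    · rcases mul_eq_zero.1 h with h5 | h5
      · norm_num at h5
      · exact pow_eq_zero_iff (by norm_num) |>.1 h5
    · exact absurd h hd
  have hc3 : Real.cos (2 * Real.pi / 3) = -(1 / 2) := by
    rw [show 2 * Real.pi / 3 = Real.pi - Real.pi / 3 by ring, Real.cos_pi_sub, Real.cos_pi_div_three]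
  have hre1 : -(1 / 2) < (pt t).re := by
    rw [pt_re, ← hc3]
    exact Real.cos_lt_cos_of_nonneg_of_le_pi (by linarith) (by linarith) ht2
  have hre2 : (pt t).re < 0 := by
    rw [pt_re]
    exact Real.cos_neg_of_pi_div_two_lt_of_lt ht1 (by linarith)
  refine E4_ne hre1 hre2 ?_ hE
  rw [pt_re] at hre1 hre2
  rw [pt_im]
  have hs : 0 < Real.sin t := by have := hsin t ht; rwa [pt_im] at this
  have hsc := Real.sin_sq_add_cos_sq t
  have h34 : (3 / 4 : ℝ) ≤ Real.sin t ^ 2 := by nlinarith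
  rw [div_le_iff₀ (by norm_num)]
  apply Real.sqrt_le_iff.2
  constructor
  · positivity
  · nlinarith

end Pool.Agent.Q17.Mil
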