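import Mathlib
import Pool.Agent.Q17.Mil.Ana

/-!
# The imaginary axis
-/

set_option autoImplicit false

open Filter Topology UpperHalfPlane ModularForm EisensteinSeries Complex MatrixGroups

namespace Pool.Agent.Q17.Mil

/-- the sum `∑ σ_k(n) r^n` -/
noncomputable def sg (k : ℕ) (r : ℝ) : ℝ :=
  ∑' m : ℕ, ((ArithmeticFunction.sigma k (m + 1) : ℕ) : ℝ) * r ^ (m + 1)

theorem sigma_le_pow (k m : ℕ) : ArithmeticFunction.sigma k (m + 1) ≤ (m + 1) ^ (k + 1) := by
  rw [ArithmeticFunction.sigma_apply]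
  calc ∑ d ∈ (m + 1).divisors, d ^ k ≤ ∑ _d ∈ (m + 1).divisors, (m + 1) ^ k :=
        Finset.sum_le_sum fun d hd => Nat.pow_le_pow_left (Nat.divisor_le hd) k
    _ = (m + 1).divisors.card * (m + 1) ^ k := by rw [Finset.sum_const, smul_eq_mul]
    _ ≤ (m + 1) * (m + 1) ^ k := Nat.mul_le_mul_right _ (Nat.card_divisors_le_self _)
    _ = (m + 1) ^ (k + 1) := by ring

theorem summable_sg (k : ℕ) {r : ℝ} (h0 : 0 ≤ r) (h1 : r < 1) :
    Summable fun m : ℕ => ((ArithmeticFunction.sigma k (m + 1) : ℕ) : ℝ) * r ^ (m + 1) := by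
  have h2 : Summable fun n : ℕ => ((n : ℝ) ^ (k + 1) * r ^ n) :=
    summable_pow_mul_geometric_of_norm_lt_one (k + 1) (by rwa [Real.norm_of_nonneg h0])
  refine Summable.of_nonneg_of_le (fun m => by positivity) (fun m => ?_)
    ((summable_nat_add_iff 1).2 h2)
  gcongr
  exact_mod_cast sigma_le_pow k m

theorem sg_nonneg (k : ℕ) {r : ℝ} (h0 : 0 ≤ r) : 0 ≤ sg k r :=
  tsum_nonneg fun m => by positivity

theorem sg_lt (k : ℕ) {r s : ℝ} (h0 : 0 ≤ r) (h1 : r < s) (h2 : s < 1) : sg k r < sg k s := by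
  refine Summable.tsum_lt_tsum (i := 0) (fun m => ?_) ?_ (summable_sg k h0 (h1.trans h2))
    (summable_sg k (h0.trans h1.le) h2)
  · gcongr
  · simp only [zero_add, pow_one]
    simpa using h1

/-- `e^{-2πt}` -/
noncomputable def rr (t : ℝ) : ℝ := Real.exp (-(2 * Real.pi * t))

theorem rr_pos (t : ℝ) : 0 < rr t := Real.exp_pos _

theorem rr_lt_one {t : ℝ} (ht : 0 < t) : rr t < 1 := by
  rw [rr, Real.exp_lt_one_iff]
  have := Real.pi_pos
  have : 0 < 2 * Real.pi * t := by positivity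
  linarith

theorem rr_anti {s t : ℝ} (h : s < t) : rr t < rr s := by
  rw [rr, rr, Real.exp_lt_exp]
  have := Real.pi_pos
  nlinarith

/-- `E_4(it)` -/
noncomputable def e4 (t : ℝ) : ℝ := 1 + 240 * sg 3 (rr t)
/-- `E_6(it)` -/
noncomputable def e6 (t : ℝ) : ℝ := 1 - 504 * sg 5 (rr t)

theorem exp_it (t : ℝ) : Complex.exp (2 * (Real.pi : ℂ) * Complex.I * ((t : ℂ) * Complex.I)) =
    ((rr t : ℝ) : ℂ) := by
  rw [rr]
  push_cast
  congr 1
  linear_combination (2 * (Real.pi : ℂ) * t) * Complex.I_sq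

theorem coe_re_zero {z : ℍ} (hz : z.re = 0) : (z : ℂ) = ((z.im : ℝ) : ℂ) * Complex.I := by
  apply Complex.ext
  · rw [Complex.re_ofReal_mul, Complex.I_re, mul_zero]
    exact hz
  · rw [Complex.im_ofReal_mul, Complex.I_im, mul_one]
    rfl

theorem E4_it {z : ℍ} (hz : z.re = 0) : E₄ z = ((e4 z.im : ℝ) : ℂ) := by
  rw [← Pool.Agent.TH21.MS.E4_eq, coe_re_zero hz, Pool.Agent.TH21.MS.E4, exp_it, e4, sg]
  push_cast
  rfl

theorem E6_it {z : ℍ} (hz : z.re = 0) : E₆ z = ((e6 z.im : ℝ) : ℂ) := by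
  rw [← Pool.Agent.TH21.MS.E6_eq, coe_re_zero hz, Pool.Agent.TH21.MS.E6, exp_it, e6, sg]
  push_cast
  rfl

theorem e4_ge {t : ℝ} : 1 ≤ e4 t := by
  have := sg_nonneg 3 (rr_pos t).le
  rw [e4]; linarith

theorem e6_strictMono {s t : ℝ} (hs : 0 < s) (h : s < t) : e6 s < e6 t := by
  have := sg_lt 5 (rr_pos t).le (rr_anti h) (rr_lt_one hs)
  rw [e6, e6]; linarith

theorem e6_one : e6 1 = 0 := by
  have h := E6_it (z := UpperHalfPlane.I) (by simp)
  rw [E6_I] at h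
  have h2 : (UpperHalfPlane.I : ℍ).im = 1 := by simp
  rw [h2] at h
  exact_mod_cast h.symm

theorem e6_le_one (t : ℝ) : e6 t ≤ 1 := by
  have := sg_nonneg 5 (rr_pos t).le
  rw [e6]; linarith

theorem e6_eq_zero {t : ℝ} (ht : 0 < t) : e6 t = 0 ↔ t = 1 := by
  constructor
  · intro h
    rcases lt_trichotomy t 1 with h1 | h1 | h1
    · have := e6_strictMono ht h1
      rw [e6_one, h] at this
      exact absurd this (lt_irrefl _)
    · exact h1
    · have := e6_strictMono one_pos h1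
      rw [e6_one, h] at this
      exact absurd this (lt_irrefl _)
  · rintro rfl
    exact e6_one

theorem disc_ge_one {t : ℝ} (ht : 1 ≤ t) : 0 < e4 t ^ 3 - e6 t ^ 2 := by
  have h1 : 0 ≤ e6 t := by
    rcases eq_or_lt_of_le ht with h | h
    · rw [← h, e6_one]
    · have := e6_strictMono one_pos h
      rw [e6_one] at this
      exact this.le
  have h2 : e6 t < 1 := by
    have h3 : 0 < sg 5 (rr t) := by
      have h4 := sg_lt 5 (le_refl 0) (rr_pos t) (rr_lt_one (by linarith))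
      exact lt_of_le_of_lt (sg_nonneg 5 (le_refl 0)) h4
    rw [e6]; linarith
  have h3 := @e4_ge t
  have h4 : 1 ≤ e4 t ^ 3 := one_le_pow₀ h3
  nlinarith

/-- `i / t` -/
noncomputable def it (t : ℝ) (ht : 0 < t) : ℍ := ⟨(t : ℂ) * Complex.I, by simpa using ht⟩

theorem disc_pos {t : ℝ} (ht : 0 < t) : 0 < e4 t ^ 3 - e6 t ^ 2 := by
  rcases le_or_gt 1 t with h | h
  · exact disc_ge_one h
  · set z : ℍ := it t ht with hz
    have hz1 : z.re = 0 := by
      change ((t : ℂ) * Complex.I).re = 0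
      simp
    have hz2 : z.im = t := by
      change ((t : ℂ) * Complex.I).im = t
      simp
    have hzc : (z : ℂ) = (t : ℂ) * Complex.I := rfl
    have hti : (0 : ℝ) < t⁻¹ := by positivity
    have hS : ModularGroup.S • z = it t⁻¹ hti := by
      apply UpperHalfPlane.ext
      rw [UpperHalfPlane.modular_S_smul]
      change (-(z : ℂ))⁻¹ = ((t⁻¹ : ℝ) : ℂ) * Complex.I
      rw [hzc]
      have : (t : ℂ) ≠ 0 := by exact_mod_cast ht.ne'
      push_cast
      rw [inv_neg, mul_inv, Complex.inv_I]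
      ring
    have h4 := Pool.Agent.TH21.MS.S_inv4 z
    have h6 := Pool.Agent.TH21.MS.S_inv6 z
    have hw1 : (it t⁻¹ hti).re = 0 := by
      change (((t⁻¹ : ℝ) : ℂ) * Complex.I).re = 0
      simp
    have hw2 : (it t⁻¹ hti).im = t⁻¹ := by
      change (((t⁻¹ : ℝ) : ℂ) * Complex.I).im = t⁻¹
      simp
    rw [hS, E4_it hw1, E4_it hz1, hw2, hz2, hzc, mul_pow, Complex.I_pow_four, mul_one] at h4
    rw [hS, E6_it hw1, E6_it hz1, hw2, hz2, hzc, mul_pow,
      show Complex.I ^ 6 = -1 by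
        rw [show (6 : ℕ) = 4 + 2 by norm_num, pow_add, Complex.I_pow_four, Complex.I_sq]; ring]
      at h6
    have h4' : e4 t⁻¹ = t ^ 4 * e4 t := by exact_mod_cast h4
    have h6' : e6 t⁻¹ = -(t ^ 6 * e6 t) := by
      have : ((e6 t⁻¹ : ℝ) : ℂ) = ((-(t ^ 6 * e6 t) : ℝ) : ℂ) := by
        rw [h6]; push_cast; ring
      exact_mod_cast this
    have h1 := disc_ge_one (t := t⁻¹) (by rw [one_le_inv₀ ht]; exact h.le)
    rw [h4', h6'] at h1
    have h2 : (t ^ 4 * e4 t) ^ 3 - (-(t ^ 6 * e6 t)) ^ 2 = t ^ 12 * (e4 t ^ 3 - e6 t ^ 2) := by ring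
    rw [h2] at h1
    exact pos_of_mul_pos_right h1 (by positivity)

/-- The value of `j` at a point of the imaginary axis. -/
theorem j_it {z : ℍ} (hz : z.re = 0) : ∃ x : ℝ, 1728 ≤ x ∧ E₄ z ^ 3 = x * discriminant z := by
  have h1 := disc_pos z.im_pos
  refine ⟨1728 * e4 z.im ^ 3 / (e4 z.im ^ 3 - e6 z.im ^ 2), ?_, ?_⟩
  · rw [le_div_iff₀ h1]
    have := sq_nonneg (e6 z.im)
    linarith
  · rw [discriminant_eq_E₄_cube_sub_E₆_sq, E4_it hz, E6_it hz]
    have h2 : ((e4 z.im : ℝ) : ℂ) ^ 3 - ((e6 z.im : ℝ) : ℂ) ^ 2 ≠ 0 := by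
      have : (((e4 z.im ^ 3 - e6 z.im ^ 2 : ℝ)) : ℂ) ≠ 0 := by exact_mod_cast h1.ne'
      push_cast at this
      exact this
    push_cast
    field_simp

theorem E4_it_ne {z : ℍ} (hz : z.re = 0) : E₄ z ≠ 0 := by
  rw [E4_it hz]
  have := @e4_ge z.im
  have h2 : e4 z.im ≠ 0 := by linarith
  exact_mod_cast h2

theorem E6_it_zero {z : ℍ} (hz : z.re = 0) : E₆ z = 0 ↔ z = UpperHalfPlane.I := by
  rw [E6_it hz]
  constructor
  · intro h
    have h1 : e6 z.im = 0 := by exact_mod_cast h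
    rw [e6_eq_zero z.im_pos] at h1
    apply UpperHalfPlane.ext
    rw [coe_re_zero hz, h1]
    simp
  · rintro rfl
    rw [show (UpperHalfPlane.I : ℍ).im = 1 by simp, e6_one]
    simp

end Pool.Agent.Q17.Mil
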