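import Mathlib

/-!
# Products of power series given by lists of integers
-/

set_option autoImplicit false

namespace Pool.Agent.Q17.Mil

open Finset PowerSeries

/-- congruence of power series modulo `X ^ t` -/
def EqT (t : ℕ) {R : Type*} [CommRing R] (f g : R⟦X⟧) : Prop :=
  ∀ i, i < t → coeff i f = coeff i g

section EqT
variable {R : Type*} [CommRing R] {t : ℕ} {f g h f' g' : R⟦X⟧}
theorem EqT.refl (f : R⟦X⟧) : EqT t f f := fun _ _ => rfl
theorem EqT.symm (h : EqT t f g) : EqT t g f := fun i hi => (h i hi).symm
theorem EqT.trans (h1 : EqT t f g) (h2 : EqT t g h) : EqT t f h :=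
  fun i hi => (h1 i hi).trans (h2 i hi)
theorem EqT.mul (h1 : EqT t f g) (h2 : EqT t f' g') : EqT t (f * f') (g * g') := by
  intro i hi
  rw [coeff_mul, coeff_mul]
  refine sum_congr rfl fun p hp => ?_
  have := mem_antidiagonal.1 hp
  rw [h1 p.1 (by omega), h2 p.2 (by omega)]
theorem EqT.add (h1 : EqT t f g) (h2 : EqT t f' g') : EqT t (f + f') (g + g') := by
  intro i hi
  rw [map_add, map_add, h1 i hi, h2 i hi]
theorem EqT.sub (h1 : EqT t f g) (h2 : EqT t f' g') : EqT t (f - f') (g - g') := by
  intro i hi
  rw [map_sub, map_sub, h1 i hi, h2 i hi]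
theorem EqT.of_eq (h : f = g) : EqT t f g := by subst h; exact EqT.refl _
theorem EqT.mono {s : ℕ} (hs : s ≤ t) (h1 : EqT t f g) : EqT s f g := fun i hi => h1 i (by omega)
end EqT

/-- the power series with the coefficients in the list -/
noncomputable def ser (l : List ℤ) : ℚ⟦X⟧ := PowerSeries.mk fun n => ((l.getD n 0 : ℤ) : ℚ)

theorem coeff_ser (l : List ℤ) (n : ℕ) : coeff n (ser l) = ((l.getD n 0 : ℤ) : ℚ) := by
  rw [ser, coeff_mk]

/-- dot product -/
def dot : List ℤ → List ℤ → ℤ
  | a :: as, b :: bs => a * b + dot as bs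
  | _, _ => 0

theorem dot_eq (a : List ℤ) : ∀ b : List ℤ,
    dot a b = ∑ i ∈ range b.length, a.getD i 0 * b.getD i 0 := by
  induction a with
  | nil =>
    intro b
    cases b <;> simp [dot]
  | cons x a ih =>
    intro b
    cases b with
    | nil => simp [dot]
    | cons y b =>
      rw [dot, ih, List.length_cons, sum_range_succ']
      simp [add_comm]

/-- check the coefficients of the product of `a` with `rb.reverse ++ b` -/
def chk (a : List ℤ) : List ℤ → List ℤ → List ℤ → Bool
  | _, [], [] => true
  | rb, x :: bs, y :: cs => (dot a (x :: rb) == y) && chk a (x :: rb) bs cs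
  | _, _, _ => false

theorem chk_spec (a : List ℤ) : ∀ (b rb c : List ℤ), chk a rb b c = true →
    c.length = b.length ∧ ∀ n, n < b.length →
      c.getD n 0 = ∑ i ∈ range (rb.length + n + 1),
        a.getD i 0 * (rb.reverse ++ b).getD (rb.length + n - i) 0 := by
  intro b
  induction b with
  | nil =>
    intro rb c h
    cases c with
    | nil => simp
    | cons y c => simp [chk] at h
  | cons x b ih =>
    intro rb c h
    cases c with
    | nil => simp [chk] at h
    | cons y c =>
      rw [chk, Bool.and_eq_true, beq_iff_eq] at h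
      obtain ⟨h1, h2⟩ := h
      obtain ⟨h3, h4⟩ := ih (x :: rb) c h2
      refine ⟨by simp [h3], fun n hn => ?_⟩
      cases n with
      | zero =>
        rw [List.getD_cons_zero, ← h1, dot_eq]
        simp only [add_zero, List.length_cons]
        refine sum_congr rfl fun i hi => ?_
        have hi' := mem_range.1 hi
        congr 1
        rcases Nat.eq_zero_or_pos i with h0 | h0
        · subst h0
          simp [List.getD_eq_getElem?_getD]
        · obtain ⟨i, rfl⟩ : ∃ i', i = i' + 1 := ⟨i - 1, by omega⟩
          rw [List.getD_cons_succ]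
          have h5 : i < rb.length := by omega
          have h6 : rb.length - (i + 1) < rb.length := by omega
          rw [List.getD_eq_getElem?_getD, List.getD_eq_getElem?_getD,
            List.getElem?_append_left (by simpa using h6), List.getElem?_reverse h6]
          congr 2
          omega
      | succ n =>
        have h5 := h4 n (by simpa using hn)
        rw [List.getD_cons_succ, h5]
        simp only [List.length_cons, List.reverse_cons, List.append_assoc, List.singleton_append]
        rw [show rb.length + (n + 1) + 1 = rb.length + 1 + n + 1 by ring]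
        refine sum_congr rfl fun i _ => ?_
        rw [show rb.length + (n + 1) - i = rb.length + 1 + n - i by omega]

/-- the product check -/
theorem chk_mul {a b c : List ℤ} (h : chk a [] b c = true) :
    EqT b.length (ser a * ser b) (ser c) := by
  obtain ⟨_, h1⟩ := chk_spec a b [] c h
  intro n hn
  rw [coeff_ser, h1 n hn, coeff_mul]
  simp only [List.length_nil, zero_add, List.reverse_nil, List.nil_append, coeff_ser]
  rw [Finset.Nat.sum_antidiagonal_eq_sum_range_succ
    (fun i j => ((a.getD i 0 : ℤ) : ℚ) * ((b.getD j 0 : ℤ) : ℚ))]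
  push_cast
  rfl

/-- `∑ n x_n q^n` -/
def thL : ℕ → List ℤ → List ℤ
  | _, [] => []
  | n, x :: l => (n * x) :: thL (n + 1) l

theorem thL_getD (l : List ℤ) : ∀ (s n : ℕ), (thL s l).getD n 0 = ((s + n : ℕ) : ℤ) * l.getD n 0 := by
  induction l with
  | nil => intro s n; simp [thL]
  | cons x l ih =>
    intro s n
    cases n with
    | zero => simp [thL]
    | succ n =>
      rw [thL, List.getD_cons_succ, List.getD_cons_succ, ih]
      congr 2
      ring

theorem thL_length (l : List ℤ) : ∀ s : ℕ, (thL s l).length = l.length := by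
  induction l with
  | nil => intro s; rfl
  | cons x l ih => intro s; simp [thL, ih]

/-- `θ f = X f'` -/
noncomputable def th (f : ℚ⟦X⟧) : ℚ⟦X⟧ := X * d⁄dX ℚ f

theorem coeff_th (f : ℚ⟦X⟧) (n : ℕ) : coeff n (th f) = n * coeff n f := by
  cases n with
  | zero => simp [th]
  | succ n =>
    rw [th, coeff_succ_X_mul, coeff_derivative]
    push_cast
    ring

theorem th_mul (f g : ℚ⟦X⟧) : th (f * g) = th f * g + f * th g := by
  unfold th
  rw [Derivation.leibniz, smul_eq_mul, smul_eq_mul]
  ring

theorem th_add (f g : ℚ⟦X⟧) : th (f + g) = th f + th g := by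
  unfold th; rw [map_add]; ring

theorem th_sub (f g : ℚ⟦X⟧) : th (f - g) = th f - th g := by
  unfold th; rw [map_sub]; ring

theorem th_smul (c : ℚ) (f : ℚ⟦X⟧) : th (PowerSeries.C c * f) = PowerSeries.C c * th f := by
  ext n
  rw [coeff_th, coeff_C_mul, coeff_C_mul, coeff_th]; ring

theorem th_pow (f : ℚ⟦X⟧) (n : ℕ) : th (f ^ (n + 1)) = (n + 1 : ℕ) * f ^ n * th f := by
  induction n with
  | zero => simp
  | succ n ih =>
    rw [pow_succ, th_mul, ih]
    push_cast
    ring

theorem th_X : th (X : ℚ⟦X⟧) = X := by
  ext n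
  rw [coeff_th, coeff_X]
  split_ifs with h
  · subst h; simp
  · simp

theorem ser_thL (l : List ℤ) : ser (thL 0 l) = th (ser l) := by
  ext n
  rw [coeff_ser, thL_getD, coeff_th, coeff_ser]
  push_cast
  ring

end Pool.Agent.Q17.Mil
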