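import Mathlib
import Pool.Agent.Q17.Mil.Lst

/-!
# The constant term of the Faber polynomials: formal part
-/

set_option autoImplicit false

namespace Pool.Agent.Q17.Mil

open Finset PowerSeries

/-- `E_4` -/
noncomputable def E4 : ℚ⟦X⟧ := PowerSeries.mk fun n => if n = 0 then 1 else
  240 * ((ArithmeticFunction.sigma 3 n : ℕ) : ℚ)

/-- `E_6` -/
noncomputable def E6 : ℚ⟦X⟧ := PowerSeries.mk fun n => if n = 0 then 1 else
  -504 * ((ArithmeticFunction.sigma 5 n : ℕ) : ℚ)

/-- `Δ = (E_4 ^ 3 - E_6 ^ 2) / 1728` -/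
noncomputable def Dl : ℚ⟦X⟧ := PowerSeries.C (1 / 1728) * (E4 ^ 3 - E6 ^ 2)

/-- `Δ / q` -/
noncomputable def dd : ℚ⟦X⟧ := PowerSeries.mk fun n => coeff (n + 1) Dl

theorem cc_E4 : constantCoeff E4 = 1 := by
  rw [← coeff_zero_eq_constantCoeff_apply, E4, coeff_mk, if_pos rfl]

theorem cc_E6 : constantCoeff E6 = 1 := by
  rw [← coeff_zero_eq_constantCoeff_apply, E6, coeff_mk, if_pos rfl]

theorem cc_Dl : constantCoeff Dl = 0 := by
  rw [Dl, map_mul, map_sub, map_pow, map_pow, cc_E4, cc_E6]; simp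

theorem c1728 : (PowerSeries.C (1 / 1728) : ℚ⟦X⟧) * 1728 = 1 := by
  have : (1728 : ℚ⟦X⟧) = PowerSeries.C (1728 : ℚ) := (map_ofNat PowerSeries.C 1728).symm
  rw [this, ← map_mul]
  norm_num

theorem Dl_1728 : 1728 * Dl = E4 ^ 3 - E6 ^ 2 := by
  rw [Dl]
  linear_combination (E4 ^ 3 - E6 ^ 2) * c1728

theorem Dl_eq : Dl = X * dd := by
  ext n
  cases n with
  | zero =>
    rw [coeff_zero_eq_constantCoeff_apply, cc_Dl]; simp
  | succ n => rw [coeff_succ_X_mul, dd, coeff_mk]

theorem coeff_one_pow {f : ℚ⟦X⟧} (hf : constantCoeff f = 1) (n : ℕ) :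
    coeff 1 (f ^ n) = n * coeff 1 f := by
  induction n with
  | zero => simp [coeff_one]
  | succ n ih =>
    rw [pow_succ, coeff_mul, Nat.antidiagonal_succ]
    simp [ih, hf]
    ring

theorem cc_dd : constantCoeff dd = 1 := by
  rw [← coeff_zero_eq_constantCoeff_apply, dd, coeff_mk, Dl, coeff_C_mul, map_sub,
    coeff_one_pow cc_E4, coeff_one_pow cc_E6, E4, E6, coeff_mk, coeff_mk]
  simp [ArithmeticFunction.sigma_one]
  norm_num

/-- `(Δ / q)⁻¹` -/
noncomputable def uu : ℚ⟦X⟧ := dd⁻¹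

/-- `E_6 / E_4` -/
noncomputable def vv : ℚ⟦X⟧ := E6 * E4⁻¹

theorem dd_uu : dd * uu = 1 := PowerSeries.mul_inv_cancel _ (by rw [cc_dd]; norm_num)

theorem E4_inv : E4 * E4⁻¹ = 1 := PowerSeries.mul_inv_cancel _ (by rw [cc_E4]; norm_num)

theorem E4_vv : E4 * vv = E6 := by rw [vv]; linear_combination E6 * E4_inv

theorem cc_vv : constantCoeff vv = 1 := by
  have h := congrArg constantCoeff E4_vv
  rwa [map_mul, cc_E4, cc_E6, one_mul] at h

theorem cc_uu : constantCoeff uu = 1 := by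
  have h := congrArg constantCoeff dd_uu
  rwa [map_mul, cc_dd, map_one, one_mul] at h

theorem th_one : th (1 : ℚ⟦X⟧) = 0 := by simp [th]

theorem th_uu : th uu = -(uu ^ 2 * th dd) := by
  have h := congrArg th dd_uu
  rw [th_mul, th_one] at h
  linear_combination uu * h - (th uu) * dd_uu

/-- `q j` -/
noncomputable def JJ : ℚ⟦X⟧ := E4 ^ 3 * uu

theorem th_pow3 (f : ℚ⟦X⟧) : th (f ^ 3) = 3 * f ^ 2 * th f := by
  have := th_pow f 2
  push_cast at this
  linear_combination this

theorem th_pow2 (f : ℚ⟦X⟧) : th (f ^ 2) = 2 * f * th f := by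
  have := th_pow f 1
  push_cast at this
  linear_combination this

/-- the identity `θ j = - j E_6 / E_4`, to finite precision, from the Rankin-Cohen bracket -/
theorem JJ_th {N : ℕ} (hR : EqT (N + 1) (3 * E6 * th E4 - 2 * E4 * th E6) (E4 ^ 3 - E6 ^ 2)) :
    EqT N (JJ * vv) (JJ - th JJ) := by
  set Y : ℚ⟦X⟧ := E4 * dd - 3 * th E4 * dd + E4 * th dd - E6 * dd with hY
  have h1 : JJ - th JJ - JJ * vv = E4 ^ 2 * uu ^ 2 * Y := by
    rw [JJ, th_mul, th_pow3, th_uu]
    linear_combination (-E4 ^ 2 * uu) * E4_vv + (-(E4 ^ 2 * uu) * (E4 - 3 * th E4 - E6)) * dd_uu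
  have h2 : th Dl = X * dd + X * th dd := by rw [Dl_eq, th_mul, th_X]
  have h3 : 1728 * th Dl = 3 * E4 ^ 2 * th E4 - 2 * E6 * th E6 := by
    have := congrArg th Dl_1728
    rw [th_sub, th_pow3, th_pow2] at this
    have h4 : th (1728 * Dl) = 1728 * th Dl := by
      have h5 : (1728 : ℚ⟦X⟧) = PowerSeries.C (1728 : ℚ) := (map_ofNat PowerSeries.C 1728).symm
      rw [h5, th_smul]
    rw [h4] at this
    exact this
  have h4 : 1728 * (X * Y) = E6 * (3 * E6 * th E4 - 2 * E4 * th E6 - (E4 ^ 3 - E6 ^ 2)) := by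
    have h5 : X * Y = E4 * th Dl - (3 * th E4 + E6) * Dl := by
      rw [h2, Dl_eq, hY]; ring
    rw [h5]
    linear_combination E4 * h3 - (3 * th E4 + E6) * Dl_1728
  have h5 : EqT N Y 0 := by
    intro n hn
    have h6 : EqT (N + 1) (1728 * (X * Y)) 0 := by
      rw [h4]
      have h7 := (EqT.refl (t := N + 1) E6).mul (hR.sub (EqT.refl (E4 ^ 3 - E6 ^ 2)))
      refine h7.trans (EqT.of_eq ?_)
      ring
    have h7 := h6 (n + 1) (by omega)
    have h8 : (1728 : ℚ⟦X⟧) = PowerSeries.C (1728 : ℚ) := (map_ofNat PowerSeries.C 1728).symm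
    rw [h8, coeff_C_mul, coeff_succ_X_mul, map_zero] at h7
    rw [map_zero]
    linarith
  have h6 : EqT N (JJ - th JJ - JJ * vv) 0 := by
    rw [h1]
    exact ((EqT.refl (t := N) (E4 ^ 2 * uu ^ 2)).mul h5).trans (EqT.of_eq (mul_zero _))
  intro n hn
  have h7 := h6 n hn
  rw [map_sub, map_zero] at h7
  linarith

theorem coeff_JJ_vv {N i : ℕ} (hR : EqT (N + 1) (3 * E6 * th E4 - 2 * E4 * th E6) (E4 ^ 3 - E6 ^ 2))
    (hi : i + 1 < N) : coeff (i + 1) (JJ ^ (i + 1) * vv) = 0 := by
  have h1 : JJ ^ (i + 1) * vv = JJ ^ i * (JJ * vv) := by ring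
  rw [h1, ((EqT.refl (t := N) (JJ ^ i)).mul (JJ_th hR)) (i + 1) hi, mul_sub, map_sub,
    ← pow_succ]
  have h2 := congrArg (coeff (i + 1)) (th_pow JJ i)
  have h5 : (((i + 1 : ℕ)) : ℚ⟦X⟧) = PowerSeries.C (((i + 1 : ℕ)) : ℚ) :=
    (map_natCast PowerSeries.C _).symm
  rw [coeff_th, mul_assoc, h5, coeff_C_mul] at h2
  have h3 : ((i + 1 : ℕ) : ℚ) ≠ 0 := by positivity
  have h4 := mul_left_cancel₀ h3 h2
  rw [h4, sub_self]

/-- the form with the coefficients `c` -/
noncomputable def frm (l : ℕ) (c : ℕ → ℚ) (D : ℕ) : ℚ⟦X⟧ :=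
  ∑ i ∈ range (D + 1), PowerSeries.C (c i) * (E4 ^ (3 * i) * Dl ^ (l - i))

theorem frm_eq {l D : ℕ} (hD : D ≤ l) (c : ℕ → ℚ) :
    frm l c D = X ^ (l - D) * dd ^ l *
      ∑ i ∈ range (D + 1), PowerSeries.C (c i) * (X ^ (D - i) * JJ ^ i) := by
  rw [frm, mul_sum]
  refine sum_congr rfl fun i hi => ?_
  have hi' := mem_range.1 hi
  have h1 : dd ^ l = dd ^ (l - i) * dd ^ i := by rw [← pow_add]; congr 1; omega
  have h2 : (X : ℚ⟦X⟧) ^ (l - i) = X ^ (l - D) * X ^ (D - i) := by
    rw [← pow_add]; congr 1; omega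
  have h3 : dd ^ i * uu ^ i = 1 := by rw [← mul_pow, dd_uu, one_pow]
  rw [Dl_eq, mul_pow, h2, JJ, mul_pow, h1, pow_mul]
  linear_combination (-(PowerSeries.C (c i) * (E4 ^ 3) ^ i * X ^ (l - D) * X ^ (D - i) *
    dd ^ (l - i))) * h3

/-- **The constant term.** -/
theorem c_zero {l D : ℕ} (hD : D ≤ l) (c : ℕ → ℚ)
    (hf : ∀ n ≤ l, coeff n (frm l c D) = if n = l - D then 1 else 0)
    (hR : EqT (D + 2) (3 * E6 * th E4 - 2 * E4 * th E6) (E4 ^ 3 - E6 ^ 2)) :
    c 0 = coeff D (uu ^ l * vv) := by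
  have h1 : EqT (l + 1) (frm l c D) (X ^ (l - D)) := by
    intro n hn
    rw [hf n (by omega), coeff_X_pow]
  have h2 := ((EqT.refl (t := l + 1) (uu ^ l * vv)).mul h1) l (by omega)
  rw [frm_eq hD] at h2
  have h3 : uu ^ l * vv * (X ^ (l - D) * dd ^ l *
      ∑ i ∈ range (D + 1), PowerSeries.C (c i) * (X ^ (D - i) * JJ ^ i)) =
      X ^ (l - D) * ∑ i ∈ range (D + 1), PowerSeries.C (c i) * (X ^ (D - i) * (JJ ^ i * vv)) := by
    have h4 : uu ^ l * dd ^ l = 1 := by rw [← mul_pow, mul_comm, dd_uu, one_pow]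
    have h5 : ∑ i ∈ range (D + 1), PowerSeries.C (c i) * (X ^ (D - i) * (JJ ^ i * vv)) =
        vv * ∑ i ∈ range (D + 1), PowerSeries.C (c i) * (X ^ (D - i) * JJ ^ i) := by
      rw [mul_sum]
      refine sum_congr rfl fun i _ => ?_
      ring
    rw [h5]
    linear_combination (vv * X ^ (l - D) *
      ∑ i ∈ range (D + 1), PowerSeries.C (c i) * (X ^ (D - i) * JJ ^ i)) * h4
  have h6 : coeff l (uu ^ l * vv * X ^ (l - D)) = coeff D (uu ^ l * vv) := by
    have := coeff_mul_X_pow (uu ^ l * vv) (l - D) D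
    rwa [show D + (l - D) = l by omega] at this
  have h7 : coeff l (X ^ (l - D) *
      ∑ i ∈ range (D + 1), PowerSeries.C (c i) * (X ^ (D - i) * (JJ ^ i * vv))) = c 0 := by
    have h12 := coeff_mul_X_pow
      (∑ i ∈ range (D + 1), PowerSeries.C (c i) * (X ^ (D - i) * (JJ ^ i * vv))) (l - D) D
    rw [show D + (l - D) = l by omega] at h12
    rw [mul_comm, h12, map_sum, sum_range_succ']
    have h8 : ∀ i ∈ range D, coeff D (PowerSeries.C (c (i + 1)) *
        (X ^ (D - (i + 1)) * (JJ ^ (i + 1) * vv))) = 0 := by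
      intro i hi
      have hi' := mem_range.1 hi
      rw [coeff_C_mul]
      have h10 : coeff D (X ^ (D - (i + 1)) * (JJ ^ (i + 1) * vv)) =
          coeff (i + 1) (JJ ^ (i + 1) * vv) := by
        have := coeff_mul_X_pow (JJ ^ (i + 1) * vv) (D - (i + 1)) (i + 1)
        rw [show i + 1 + (D - (i + 1)) = D by omega] at this
        rw [mul_comm]; exact this
      rw [h10, coeff_JJ_vv hR (by omega), mul_zero]
    rw [sum_eq_zero h8, zero_add, coeff_C_mul, Nat.sub_zero, pow_zero, one_mul]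
    have h9 : coeff D ((X : ℚ⟦X⟧) ^ D * vv) = coeff 0 vv := by
      have := coeff_mul_X_pow vv D 0
      rw [zero_add] at this
      rw [mul_comm]; exact this
    rw [h9, coeff_zero_eq_constantCoeff_apply, cc_vv, mul_one]
  rw [h3, h7, h6] at h2
  exact h2

theorem coeff_base {l i : ℕ} (hi : i ≤ l) (n : ℕ) (hn : n ≤ l - i) :
    coeff n (E4 ^ (3 * i) * Dl ^ (l - i)) = if n = l - i then 1 else 0 := by
  rw [Dl_eq, mul_pow]
  have h1 : E4 ^ (3 * i) * (X ^ (l - i) * dd ^ (l - i)) =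
      (E4 ^ (3 * i) * dd ^ (l - i)) * X ^ (l - i) := by ring
  rw [h1, coeff_mul_X_pow']
  rcases Nat.lt_or_ge n (l - i) with h2 | h2
  · rw [if_neg (by omega), if_neg (by omega)]
  · have h3 : n = l - i := by omega
    rw [if_pos h2, if_pos h3, h3, Nat.sub_self, coeff_zero_eq_constantCoeff_apply, map_mul, map_pow,
      map_pow, cc_E4, cc_dd]
    simp

/-- existence of the Faber polynomials -/
theorem exists_c (l : ℕ) : ∀ D ≤ l, ∃ c : ℕ → ℚ, c D = 1 ∧ (∀ i, D < i → c i = 0) ∧
    ∀ n ≤ l, coeff n (frm l c D) = if n = l - D then 1 else 0 := by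
  intro D
  induction D using Nat.strong_induction_on with
  | _ D ih =>
    intro hD
    choose! c h1 h2 h3 using ih
    set a : ℕ → ℚ := fun E => coeff (l - E) (E4 ^ (3 * D) * Dl ^ (l - D)) with ha
    refine ⟨fun i => (if i = D then 1 else 0) - ∑ E ∈ range D, a E * c E i, ?_, ?_, ?_⟩
    · simp only [if_true]
      rw [sum_eq_zero, sub_zero]
      intro E hE
      have hE' := mem_range.1 hE
      rw [h2 E hE' (by omega) D hE', mul_zero]
    · intro i hi
      simp only
      rw [if_neg (by omega), sum_eq_zero, sub_zero]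
      intro E hE
      have hE' := mem_range.1 hE
      rw [h2 E hE' (by omega) i (by omega), mul_zero]
    · intro n hn
      have e1 : frm l (fun i => (if i = D then 1 else 0) - ∑ E ∈ range D, a E * c E i) D =
          E4 ^ (3 * D) * Dl ^ (l - D) - ∑ E ∈ range D, PowerSeries.C (a E) * frm l (c E) E := by
        have e2 : ∀ E ∈ range D, frm l (c E) E = ∑ i ∈ range (D + 1),
            PowerSeries.C (c E i) * (E4 ^ (3 * i) * Dl ^ (l - i)) := by
          intro E hE
          have hE' := mem_range.1 hE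
          rw [frm]
          refine sum_subset (fun i hi => ?_) (fun i _ hi => ?_)
          · rw [mem_range] at hi ⊢; omega
          · rw [mem_range] at hi
            rw [h2 E hE' (by omega) i (by omega), map_zero, zero_mul]
        rw [sum_congr rfl (fun E hE => by rw [e2 E hE])]
        simp_rw [mul_sum]
        rw [sum_comm, frm]
        have e3 : E4 ^ (3 * D) * Dl ^ (l - D) = ∑ i ∈ range (D + 1),
            PowerSeries.C (if i = D then (1 : ℚ) else 0) * (E4 ^ (3 * i) * Dl ^ (l - i)) := by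
          rw [sum_eq_single D]
          · rw [if_pos rfl, map_one, one_mul]
          · intro i _ hi
            rw [if_neg hi, map_zero, zero_mul]
          · intro h
            exact absurd (mem_range.2 (Nat.lt_succ_self D)) h
        rw [e3, ← sum_sub_distrib]
        refine sum_congr rfl fun i _ => ?_
        rw [map_sub, map_sum, sub_mul, sum_mul]
        congr 1
        refine sum_congr rfl fun E _ => ?_
        rw [map_mul]; ring
      rw [e1, map_sub, map_sum]
      have e4 : ∑ E ∈ range D, coeff n (PowerSeries.C (a E) * frm l (c E) E) =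
          ∑ E ∈ range D, if n = l - E then a E else 0 := by
        refine sum_congr rfl fun E hE => ?_
        have hE' := mem_range.1 hE
        rw [coeff_C_mul, h3 E hE' (by omega) n hn]
        split_ifs <;> simp
      rw [e4]
      rcases Nat.lt_or_ge (l - D) n with h5 | h5
      · rw [if_neg (by omega), sum_eq_single (l - n)]
        · rw [if_pos (by omega), ha]
          simp only
          rw [show l - (l - n) = n by omega, sub_self]
        · intro E hE hEn
          have hE' := mem_range.1 hE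
          rw [if_neg (by omega)]
        · intro h
          rw [mem_range] at h
          omega
      · rw [coeff_base hD n h5, sum_eq_zero, sub_zero]
        intro E hE
        have hE' := mem_range.1 hE
        rw [if_neg (by omega)]

end Pool.Agent.Q17.Mil
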