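import Mathlib
import Pool.Agent.Q17.Mil.Formal
import Pool.Agent.Q17.Mil.Data

/-!
# The sign of the constant term for `ℓ = 303`, `m = 191`
-/

set_option autoImplicit false

namespace Pool.Agent.Q17.Mil

open Finset PowerSeries

theorem sgm_eq (e n : ℕ) : ∀ j, sgm e n j = ∑ i ∈ (Icc 1 j).filter (· ∣ n), i ^ e := by
  intro j
  induction j with
  | zero => simp [sgm]
  | succ j ih =>
    rw [sgm, ih]
    have h1 : Icc 1 (j + 1) = insert (j + 1) (Icc 1 j) := by
      ext x; simp only [mem_Icc, mem_insert]; omega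
    rw [h1, filter_insert]
    by_cases h : j + 1 ∣ n
    · rw [if_pos (Nat.mod_eq_zero_of_dvd h), if_pos h, sum_insert]
      simp
    · rw [if_neg (fun h2 => h (Nat.dvd_of_mod_eq_zero h2)), if_neg h, zero_add]

theorem sgm_sigma (e n : ℕ) : sgm e n n = ArithmeticFunction.sigma e n := by
  rw [sgm_eq, ArithmeticFunction.sigma_apply]
  refine sum_congr ?_ fun _ _ => rfl
  ext x
  simp only [mem_filter, mem_Icc, Nat.mem_divisors]
  constructor
  · rintro ⟨⟨h1, h2⟩, h3⟩
    exact ⟨h3, by omega⟩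
  · rintro ⟨h1, h2⟩
    exact ⟨⟨Nat.pos_of_dvd_of_pos h1 (Nat.pos_of_ne_zero h2),
      Nat.le_of_dvd (Nat.pos_of_ne_zero h2) h1⟩, h1⟩

theorem chkS_spec (c : ℤ) (e : ℕ) : ∀ (l : List ℤ) (s : ℕ), chkS c e s l = true →
    ∀ n < l.length, l.getD n 0 = c * ((ArithmeticFunction.sigma e (s + n) : ℕ) : ℤ) := by
  intro l
  induction l with
  | nil => intro s _ n hn; simp at hn
  | cons x l ih =>
    intro s h n hn
    rw [chkS, Bool.and_eq_true, beq_iff_eq] at h
    cases n with
    | zero => rw [List.getD_cons_zero, ← h.1, sgm_sigma]; simp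
    | succ n =>
      rw [List.getD_cons_succ, ih (s + 1) h.2 n (by simpa using hn),
        show s + 1 + n = s + (n + 1) by ring]

theorem chkL_spec (r s : ℤ) : ∀ (a b c : List ℤ), chkL r s a b c = true →
    ∀ n, c.getD n 0 = r * a.getD n 0 + s * b.getD n 0 := by
  intro a
  induction a with
  | nil =>
    intro b c h n
    cases b <;> cases c <;> simp_all [chkL]
  | cons x a ih =>
    intro b c h n
    cases b with
    | nil => simp [chkL] at h
    | cons y b =>
      cases c with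
      | nil => simp [chkL] at h
      | cons z c =>
        rw [chkL, Bool.and_eq_true, beq_iff_eq] at h
        cases n with
        | zero => simp [h.1]
        | succ n =>
          rw [List.getD_cons_succ, List.getD_cons_succ, List.getD_cons_succ]
          exact ih b c h.2 n

theorem chkL_ser {r s : ℤ} {a b c : List ℤ} (h : chkL r s a b c = true) :
    ser c = PowerSeries.C (r : ℚ) * ser a + PowerSeries.C (s : ℚ) * ser b := by
  ext n
  rw [coeff_ser, chkL_spec r s a b c h n, map_add, coeff_C_mul, coeff_C_mul, coeff_ser, coeff_ser]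
  push_cast
  ring

theorem ser_map_mul (r : ℤ) (l : List ℤ) :
    ser (l.map (r * ·)) = PowerSeries.C (r : ℚ) * ser l := by
  ext n
  rw [coeff_ser, coeff_C_mul, coeff_ser]
  rw [List.getD_eq_getElem?_getD, List.getD_eq_getElem?_getD, List.getElem?_map]
  cases l[n]? <;> simp

theorem ser_cons_zero (l : List ℤ) : ser (0 :: l) = X * ser l := by
  ext n
  cases n with
  | zero => simp [coeff_ser]
  | succ n => rw [coeff_succ_X_mul, coeff_ser, coeff_ser, List.getD_cons_succ]

theorem getD_drop (l : List ℤ) (s n : ℕ) : (l.drop s).getD n 0 = l.getD (s + n) 0 := by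
  rw [List.getD_eq_getElem?_getD, List.getD_eq_getElem?_getD, List.getElem?_drop]

theorem e4_ser : EqT 114 (ser e4L) E4 := by
  intro n hn
  rw [coeff_ser, E4, coeff_mk]
  obtain ⟨h1, _, _, _, _, h2, _⟩ := k_len
  split_ifs with h
  · subst h; rw [h2]; simp
  · have h3 := chkS_spec 240 3 _ _ k_e4 (n - 1) (by rw [List.length_drop, h1]; omega)
    rw [getD_drop, show 1 + (n - 1) = n by omega] at h3
    rw [h3]
    push_cast
    ring

theorem e6_ser : EqT 114 (ser e6L) E6 := by
  intro n hn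
  rw [coeff_ser, E6, coeff_mk]
  obtain ⟨_, h1, _, _, _, _, h2, _⟩ := k_len
  split_ifs with h
  · subst h; rw [h2]; simp
  · have h3 := chkS_spec (-504) 5 _ _ k_e6 (n - 1) (by rw [List.length_drop, h1]; omega)
    rw [getD_drop, show 1 + (n - 1) = n by omega] at h3
    rw [h3]
    push_cast
    ring

theorem e4s_ser : EqT 114 (ser e4sL) (E4 ^ 2) := by
  have h := chk_mul k_e4s
  rw [k_len.1] at h
  refine h.symm.trans ((e4_ser.mul e4_ser).trans (EqT.of_eq (by ring)))

theorem e4c_ser : EqT 114 (ser e4cL) (E4 ^ 3) := by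
  have h := chk_mul k_e4c
  rw [k_len.1] at h
  refine h.symm.trans ((e4s_ser.mul e4_ser).trans (EqT.of_eq (by ring)))

theorem e6s_ser : EqT 114 (ser e6sL) (E6 ^ 2) := by
  have h := chk_mul k_e6s
  rw [k_len.2.1] at h
  refine h.symm.trans ((e6_ser.mul e6_ser).trans (EqT.of_eq (by ring)))

theorem de_ser : EqT 114 (ser ((0 :: dL).map (1728 * ·))) (E4 ^ 3 - E6 ^ 2) := by
  rw [chkL_ser k_d]
  refine ((((EqT.refl _).mul e4c_ser).add ((EqT.refl _).mul e6s_ser))).trans (EqT.of_eq ?_)
  push_cast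
  simp
  ring

theorem d_ser : EqT 113 (ser dL) dd := by
  intro n hn
  have h := de_ser (n + 1) (by omega)
  rw [← Dl_1728, ser_map_mul, ser_cons_zero, Dl_eq] at h
  have h5 : (1728 : ℚ⟦X⟧) = PowerSeries.C (1728 : ℚ) := (map_ofNat PowerSeries.C 1728).symm
  rw [h5, coeff_C_mul, coeff_C_mul, coeff_succ_X_mul, coeff_succ_X_mul] at h
  push_cast at h
  linarith

theorem EqT.th {t : ℕ} {f g : ℚ⟦X⟧} (h : EqT t f g) : EqT t (th f) (th g) := by
  intro n hn
  rw [coeff_th, coeff_th, h n hn]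

theorem R_ser : EqT 114 (3 * E6 * th E4 - 2 * E4 * th E6) (E4 ^ 3 - E6 ^ 2) := by
  have h1 := chk_mul k_p1
  rw [thL_length, k_len.1, ser_thL] at h1
  have h2 := chk_mul k_p2
  rw [thL_length, k_len.2.1, ser_thL] at h2
  have h3 := chkL_ser k_R
  have h4 := de_ser
  rw [h3] at h4
  refine EqT.trans ?_ h4
  have h5 := ((EqT.refl (t := 114) (PowerSeries.C ((3 : ℤ) : ℚ))).mul
    ((e6_ser.mul e4_ser.th).symm.trans h1)).add
    ((EqT.refl (t := 114) (PowerSeries.C ((-2 : ℤ) : ℚ))).mul ((e4_ser.mul e6_ser.th).symm.trans h2))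
  refine EqT.trans (EqT.of_eq ?_) h5
  have c3 : (PowerSeries.C ((3 : ℤ) : ℚ) : ℚ⟦X⟧) = 3 := by
    push_cast; exact map_ofNat PowerSeries.C 3
  have c2 : (PowerSeries.C ((-2 : ℤ) : ℚ) : ℚ⟦X⟧) = -2 := by
    push_cast; rw [map_neg]; congr 1
  rw [c3, c2]
  ring

theorem v_ser : EqT 113 (ser vL) vv := by
  have h := chk_mul k_v
  rw [k_len.2.2.2.2.1] at h
  have h2 : EqT 113 (ser (e6L.take 113)) E6 := by
    intro n hn
    rw [← e6_ser n (by omega), coeff_ser, coeff_ser]
    congr 1
    rw [List.getD_eq_getElem?_getD, List.getD_eq_getElem?_getD, List.getElem?_take_of_lt hn]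
  have h3 := ((e4_ser.mono (by norm_num : 113 ≤ 114)).mul (EqT.refl (ser vL))).symm.trans
    (h.trans h2)
  have h4 := (EqT.refl (t := 113) (E4⁻¹)).mul h3
  refine EqT.trans (EqT.of_eq ?_) (h4.trans (EqT.of_eq ?_))
  · linear_combination (-(ser vL)) * E4_inv
  · rw [vv]; ring

theorem a_ser : EqT 113 (ser aL) (uu ^ 303) := by
  have h1 := chk_mul k_q1
  rw [thL_length, k_len.2.2.2.1, ser_thL] at h1
  have h2 := chk_mul k_q2
  rw [List.length_map, thL_length, k_len.2.2.1, ser_map_mul, ser_thL] at h2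
  -- dd * th a = -303 a th dd
  have h3 : EqT 113 (dd * th (ser aL)) (PowerSeries.C ((-303 : ℤ) : ℚ) * (ser aL * th dd)) := by
    refine (d_ser.symm.mul (EqT.refl _)).trans (h1.trans (h2.symm.trans ?_))
    refine ((EqT.refl _).mul ((EqT.refl _).mul d_ser.th)).trans (EqT.of_eq ?_)
    ring
  set w := ser aL * dd ^ 303 with hw
  have h4 : EqT 113 (th w) 0 := by
    have h5 : th w = dd ^ 302 * (dd * th (ser aL) -
        PowerSeries.C ((-303 : ℤ) : ℚ) * (ser aL * th dd)) := by
      have c3 : (PowerSeries.C ((-303 : ℤ) : ℚ) : ℚ⟦X⟧) = -303 := by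
        push_cast; rw [map_neg]; congr 1
      rw [hw, th_mul, th_pow dd 302, c3]
      push_cast
      ring
    rw [h5]
    refine ((EqT.refl _).mul (h3.sub (EqT.refl _))).trans (EqT.of_eq ?_)
    ring
  have h5 : EqT 113 w 1 := by
    intro n hn
    rcases Nat.eq_zero_or_pos n with h0 | h0
    · subst h0
      rw [hw, coeff_zero_eq_constantCoeff_apply, map_mul, map_pow, cc_dd, one_pow, mul_one,
        ← coeff_zero_eq_constantCoeff_apply, coeff_ser, k_len.2.2.2.2.2.2.2]
      simp
    · have h6 := h4 n hn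
      rw [coeff_th, map_zero] at h6
      have h7 : (n : ℚ) ≠ 0 := by positivity
      rw [coeff_one, if_neg (by omega)]
      exact (mul_eq_zero.1 h6).resolve_left h7
  have h6 := (EqT.refl (t := 113) (uu ^ 303)).mul h5
  refine EqT.trans (EqT.of_eq ?_) (h6.trans (EqT.of_eq (mul_one _)))
  have h7 : dd ^ 303 * uu ^ 303 = 1 := by rw [← mul_pow, dd_uu, one_pow]
  rw [hw]
  linear_combination (-(ser aL)) * h7

theorem coeff_sign : coeff 112 (uu ^ 303 * vv) < 0 := by
  rw [← (a_ser.mul v_ser) 112 (by norm_num), mul_comm, coeff_mul]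
  simp only [coeff_ser]
  rw [Finset.Nat.sum_antidiagonal_eq_sum_range_succ
    (fun i j => ((vL.getD i 0 : ℤ) : ℚ) * ((aL.getD j 0 : ℤ) : ℚ))]
  have h1 := of_decide_eq_true k_sign
  rw [dot_eq, List.length_reverse, k_len.2.2.2.1] at h1
  have h2 : ∑ i ∈ range (112 + 1), vL.getD i 0 * aL.getD (112 - i) 0 < 0 := by
    refine lt_of_eq_of_lt ?_ h1
    refine sum_congr rfl fun i hi => ?_
    have hi' := mem_range.1 hi
    congr 1
    rw [List.getD_eq_getElem?_getD, List.getD_eq_getElem?_getD,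
      List.getElem?_reverse (by rw [k_len.2.2.2.1]; omega), k_len.2.2.2.1]
  exact_mod_cast h2

end Pool.Agent.Q17.Mil
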