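import Mathlib
import Pool.Agent.Q17.Mil.Res
import Pool.Agent.Q17.Mil.Imag

/-!
# The Miller basis forms do not vanish on the imaginary axis
-/

set_option autoImplicit false

open Filter Topology UpperHalfPlane ModularForm EisensteinSeries Complex MatrixGroups

namespace Pool.Agent.Q17.Mil.R

/-- `discriminant` as a modular form -/
noncomputable def DF : ModularForm 𝒮ℒ 12 :=
  (1 / 1728 : ℂ) • (ModularForm.mcast (by decide) (E₄.pow 3) - ModularForm.mcast (by decide) (E₆.pow 2))

theorem DF_apply (z : ℍ) : DF z = discriminant z := by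
  rw [discriminant_eq_E₄_cube_sub_E₆_sq, DF]
  simp only [smul_apply, coe_mcast, coe_pow, sub_apply, Pi.pow_apply, smul_eq_mul]
  ring

theorem q_DF : qExpansion 1 DF = cm Dl := by
  rw [DF, FunLike.coe_smul, ModularForm.qExpansion_smul one_pos one_mem_strictPeriods_SL,
    FunLike.coe_sub, ModularForm.qExpansion_sub one_pos one_mem_strictPeriods_SL,
    ModularForm.qExpansion_mcast, ModularForm.qExpansion_mcast,
    ModularForm.qExpansion_pow one_pos one_mem_strictPeriods_SL,
    ModularForm.qExpansion_pow one_pos one_mem_strictPeriods_SL, q_E4, q_E6, Dl, map_mul, map_sub,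
    map_pow, map_pow, PowerSeries.map_C, PowerSeries.smul_eq_C_mul]
  norm_num

/-- `E_4^a E_6^b E_4^(3i) discriminant^(l-i)` -/
noncomputable def bs (a b l i k' : ℕ) (hk : k' = 4 * a + 6 * b) (hi : i ≤ l) :
    ModularForm 𝒮ℒ ((12 * l + k' : ℕ) : ℤ) :=
  ModularForm.mcast (by push_cast [Nat.cast_sub hi, hk]; ring)
    (((E₄.pow a).mul (E₆.pow b)).mul ((E₄.pow (3 * i)).mul (DF.pow (l - i))))

theorem bs_apply (a b l i k' : ℕ) (hk : k' = 4 * a + 6 * b) (hi : i ≤ l) (z : ℍ) :
    bs a b l i k' hk hi z =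
      E₄ z ^ a * E₆ z ^ b * (E₄ z ^ (3 * i) * discriminant z ^ (l - i)) := by
  rw [bs]
  simp only [coe_mcast, ModularForm.coe_mul, coe_pow, Pi.mul_apply, Pi.pow_apply, DF_apply]

theorem q_bs (a b l i k' : ℕ) (hk : k' = 4 * a + 6 * b) (hi : i ≤ l) :
    qExpansion 1 (bs a b l i k' hk hi) =
      cm (E4 ^ a * E6 ^ b * (E4 ^ (3 * i) * Dl ^ (l - i))) := by
  rw [bs, ModularForm.qExpansion_mcast, ModularForm.qExpansion_mul one_pos one_mem_strictPeriods_SL,
    ModularForm.qExpansion_mul one_pos one_mem_strictPeriods_SL,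
    ModularForm.qExpansion_mul one_pos one_mem_strictPeriods_SL,
    ModularForm.qExpansion_pow one_pos one_mem_strictPeriods_SL,
    ModularForm.qExpansion_pow one_pos one_mem_strictPeriods_SL,
    ModularForm.qExpansion_pow one_pos one_mem_strictPeriods_SL,
    ModularForm.qExpansion_pow one_pos one_mem_strictPeriods_SL, q_E4, q_E6, q_DF, map_mul, map_mul,
    map_mul, map_pow, map_pow, map_pow, map_pow]

/-- the modular form with the coefficients `c` -/
noncomputable def mf (a b l k' : ℕ) (hk : k' = 4 * a + 6 * b) (c : ℕ → ℝ) :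
    ℕ → ModularForm 𝒮ℒ ((12 * l + k' : ℕ) : ℤ)
  | 0 => 0
  | i + 1 => mf a b l k' hk c i + if hi : i ≤ l then ((c i : ℝ) : ℂ) • bs a b l i k' hk hi else 0

theorem mf_apply (a b l k' : ℕ) (hk : k' = 4 * a + 6 * b) (c : ℕ → ℝ) (D : ℕ) (hD : D ≤ l + 1)
    (z : ℍ) : mf a b l k' hk c D z = ∑ i ∈ Finset.range D, ((c i : ℝ) : ℂ) *
      (E₄ z ^ a * E₆ z ^ b * (E₄ z ^ (3 * i) * discriminant z ^ (l - i))) := by
  induction D with
  | zero => simp [mf]
  | succ D ih =>
    rw [mf, dif_pos (by omega), add_apply, ih (by omega), Finset.sum_range_succ,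
      smul_apply, bs_apply, smul_eq_mul]

theorem q_mf (a b l k' : ℕ) (hk : k' = 4 * a + 6 * b) (c : ℕ → ℝ) (D : ℕ) (hD : D ≤ l + 1) :
    qExpansion 1 (mf a b l k' hk c D) = cm (∑ i ∈ Finset.range D,
      PowerSeries.C (c i) * (E4 ^ a * E6 ^ b * (E4 ^ (3 * i) * Dl ^ (l - i)))) := by
  induction D with
  | zero =>
    rw [mf, Finset.range_zero, Finset.sum_empty, map_zero]
    exact qExpansion_zero 1
  | succ D ih =>
    rw [mf, dif_pos (by omega), FunLike.coe_add,
      ModularForm.qExpansion_add one_pos one_mem_strictPeriods_SL, ih (by omega),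
      Finset.sum_range_succ, map_add, FunLike.coe_smul,
      ModularForm.qExpansion_smul one_pos one_mem_strictPeriods_SL, q_bs,
      map_mul cm (PowerSeries.C (c D)), PowerSeries.map_C, PowerSeries.smul_eq_C_mul]
    rfl

/-- a level-one form of weight `12 l + k'`, `k' < 12` or `k' = 14`, which vanishes to order
`l + 1` is zero -/
theorem eq_zero_of_order (l : ℕ) : ∀ {k : ℤ} (f : ModularForm 𝒮ℒ k),
    (k - 12 * l = 14 ∨ k - 12 * l < 12) → (l : ℕ∞) < (qExpansion 1 f).order → f = 0 := by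
  induction l with
  | zero =>
    intro k f hk h
    have h0 : (qExpansion 1 f).coeff 0 = 0 := PowerSeries.coeff_of_lt_order _ h
    suffices CuspForm.discriminantEquiv (toCuspForm f h0) = 0 by
      simpa [CuspForm.discriminantEquiv.map_eq_zero_iff, DFunLike.ext_iff]
    rcases hk with hk | hk
    · have hk2 : k = 14 := by simpa using hk
      subst hk2
      exact rank_zero_iff_forall_zero.mp levelOne_weight_two_rank_zero _
    · exact rank_zero_iff_forall_zero.mp (levelOne_neg_weight_rank_zero (by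
        have : k < 12 := by simpa using hk
        omega)) _
  | succ l ih =>
    intro k f hk h
    have h0 : (qExpansion 1 f).coeff 0 = 0 :=
      PowerSeries.coeff_of_lt_order _ ((Nat.cast_nonneg _).trans_lt h)
    suffices CuspForm.discriminantEquiv (toCuspForm f h0) = 0 by
      simpa [CuspForm.discriminantEquiv.map_eq_zero_iff, DFunLike.ext_iff]
    refine ih _ (by push_cast at hk ⊢; omega) ?_
    rw [qExpansion_eq_qExpansion_discriminant_mul f h0, PowerSeries.order_mul,
      discriminant_qExpansion_order, Nat.cast_add, Nat.cast_one, add_comm (1 : ℕ∞)] at h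
    exact (ENat.add_lt_add_iff_right (ENat.natCast_ne_top 1)).mp h

/-- uniqueness of the form with given coefficients `0, …, l` -/
theorem ext_coeff (l k' : ℕ) (hk : k' = 14 ∨ k' < 12)
    (f g : ModularForm 𝒮ℒ ((12 * l + k' : ℕ) : ℤ))
    (h : ∀ n ≤ l, (qExpansion 1 f).coeff n = (qExpansion 1 g).coeff n) : f = g := by
  rw [← sub_eq_zero]
  refine eq_zero_of_order l _ (by push_cast; omega) ?_
  rw [FunLike.coe_sub, ModularForm.qExpansion_sub one_pos one_mem_strictPeriods_SL]
  have h9 : ((l + 1 : ℕ) : ℕ∞) ≤ (qExpansion 1 f - qExpansion 1 g).order :=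
    PowerSeries.nat_le_order _ _ fun i hi => by
      rw [map_sub, h i (by omega), sub_self]
  refine lt_of_lt_of_le ?_ h9
  exact_mod_cast Nat.lt_succ_self l

/-- **existence, uniqueness, and the Faber polynomial** -/
theorem miller (a b l k' m : ℕ) (ha : a ≤ 2) (hb : b ≤ 1) (hk : k' = 4 * a + 6 * b)
    (hk' : k' = 14 ∨ k' < 12) (hm : m ≤ l) :
    ∃ c : ℕ → ℝ, c (l - m) = 1 ∧ (∀ i, l - m < i → c i = 0) ∧
      (∀ x : ℝ, 1728 ≤ x → 0 < ∑ i ∈ Finset.range (l - m + 1), c i * x ^ i) ∧
      (∃ f : ModularForm 𝒮ℒ ((12 * l + k' : ℕ) : ℤ),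
        ∀ n ≤ l, (qExpansion 1 f).coeff n = if n = m then 1 else 0) ∧
      ∀ f : ModularForm 𝒮ℒ ((12 * l + k' : ℕ) : ℤ),
        (∀ n ≤ l, (qExpansion 1 f).coeff n = if n = m then 1 else 0) →
        ∀ z : ℍ, f z = discriminant z ^ l * (E₄ z ^ a * E₆ z ^ b) *
          ∑ i ∈ Finset.range (l - m + 1), ((c i : ℝ) : ℂ) * (E₄ z ^ 3 / discriminant z) ^ i := by
  obtain ⟨c, h1, h2, h3⟩ := exists_c a b l (l - m) (by omega)
  have hex : ∀ n ≤ l, (qExpansion 1 (mf a b l k' hk c (l - m + 1))).coeff n =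
      if n = m then 1 else 0 := by
    intro n hn
    rw [q_mf a b l k' hk c (l - m + 1) (by omega)]
    have h4 := h3 n hn
    rw [frm] at h4
    rw [PowerSeries.coeff_map, h4, show l - (l - m) = m by omega]
    split_ifs <;> simp
  refine ⟨c, h1, h2, fun x hx => faber_pos ha hb (by omega) c h3 hx, ⟨_, hex⟩, fun f hf z => ?_⟩
  have hff : f = mf a b l k' hk c (l - m + 1) :=
    ext_coeff l k' hk' _ _ fun n hn => by rw [hf n hn, hex n hn]
  rw [hff, mf_apply a b l k' hk c (l - m + 1) (by omega), Finset.mul_sum]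
  refine Finset.sum_congr rfl fun i hi => ?_
  have hi' := Finset.mem_range.1 hi
  have h5 : discriminant z ^ l = discriminant z ^ i * discriminant z ^ (l - i) := by
    rw [← pow_add]; congr 1; omega
  have h6 : discriminant z ^ i ≠ 0 := pow_ne_zero _ (discriminant_ne_zero z)
  rw [h5, div_pow, pow_mul]
  field_simp

end Pool.Agent.Q17.Mil.R
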