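import Mathlib
import Pool.Agent.Q17.Mil.Conn
import Pool.Agent.Q17.Mil.Ana

/-!
# A zero off the arc
-/

set_option autoImplicit false

open Filter Topology UpperHalfPlane ModularForm EisensteinSeries Complex MatrixGroups

namespace Pool.Agent.Q17.Mil


/-- `discriminant` as a modular form -/
noncomputable def DF : ModularForm 𝒮ℒ 12 :=
  (1 / 1728 : ℂ) • (ModularForm.mcast (by decide) (E₄.pow 3) - ModularForm.mcast (by decide) (E₆.pow 2))

theorem DF_apply (z : ℍ) : DF z = discriminant z := by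
  rw [discriminant_eq_E₄_cube_sub_E₆_sq, DF]
  simp only [smul_apply, coe_mcast, coe_pow, sub_apply, Pi.pow_apply, smul_eq_mul]
  ring

/-- coefficient embedding -/
noncomputable abbrev cm : PowerSeries ℚ →+* PowerSeries ℂ := PowerSeries.map (algebraMap ℚ ℂ)

theorem q_E4 : qExpansion 1 E₄ = cm E4 := by
  ext n
  rw [E_qExpansion_coeff (by norm_num) ⟨2, rfl⟩, PowerSeries.coeff_map, E4, PowerSeries.coeff_mk]
  split_ifs with h
  · simp
  · rw [show bernoulli 4 = -1 / 30 by decide +kernel]
    push_cast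
    norm_num

theorem q_E6 : qExpansion 1 E₆ = cm E6 := by
  ext n
  rw [E_qExpansion_coeff (by norm_num) ⟨3, rfl⟩, PowerSeries.coeff_map, E6, PowerSeries.coeff_mk]
  split_ifs with h
  · simp
  · rw [show bernoulli 6 = 1 / 42 by decide +kernel]
    push_cast
    norm_num

theorem q_DF : qExpansion 1 DF = cm Dl := by
  rw [DF, FunLike.coe_smul, ModularForm.qExpansion_smul one_pos one_mem_strictPeriods_SL,
    FunLike.coe_sub, ModularForm.qExpansion_sub one_pos one_mem_strictPeriods_SL,
    ModularForm.qExpansion_mcast, ModularForm.qExpansion_mcast,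
    ModularForm.qExpansion_pow one_pos one_mem_strictPeriods_SL,
    ModularForm.qExpansion_pow one_pos one_mem_strictPeriods_SL, q_E4, q_E6, Dl, map_mul, map_sub,
    map_pow, map_pow, PowerSeries.map_C, PowerSeries.smul_eq_C_mul]
  norm_num

/-- `E_4^(3i) discriminant^(l-i)` -/
noncomputable def bs (l i : ℕ) (hi : i ≤ l) : ModularForm 𝒮ℒ ((12 * l : ℕ) : ℤ) :=
  ModularForm.mcast (by push_cast [Nat.cast_sub hi]; ring) ((E₄.pow (3 * i)).mul (DF.pow (l - i)))

theorem bs_apply (l i : ℕ) (hi : i ≤ l) (z : ℍ) : bs l i hi z = E₄ z ^ (3 * i) * discriminant z ^ (l - i) := by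
  rw [bs]
  simp only [coe_mcast, ModularForm.coe_mul, coe_pow, Pi.mul_apply, Pi.pow_apply, DF_apply]

theorem q_bs (l i : ℕ) (hi : i ≤ l) : qExpansion 1 (bs l i hi) = cm (E4 ^ (3 * i) * Dl ^ (l - i)) := by
  rw [bs, ModularForm.qExpansion_mcast, ModularForm.qExpansion_mul one_pos one_mem_strictPeriods_SL,
    ModularForm.qExpansion_pow one_pos one_mem_strictPeriods_SL,
    ModularForm.qExpansion_pow one_pos one_mem_strictPeriods_SL, q_E4, q_DF, map_mul, map_pow,
    map_pow]

/-- the modular form with the coefficients `c` -/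
noncomputable def mf (l : ℕ) (c : ℕ → ℚ) : ℕ → ModularForm 𝒮ℒ ((12 * l : ℕ) : ℤ)
  | 0 => 0
  | i + 1 => mf l c i + if hi : i ≤ l then ((c i : ℚ) : ℂ) • bs l i hi else 0

theorem mf_apply (l : ℕ) (c : ℕ → ℚ) (D : ℕ) (hD : D ≤ l + 1) (z : ℍ) :
    mf l c D z = ∑ i ∈ Finset.range D, ((c i : ℚ) : ℂ) * (E₄ z ^ (3 * i) * discriminant z ^ (l - i)) := by
  induction D with
  | zero => simp [mf]
  | succ D ih =>
    rw [mf, dif_pos (by omega), add_apply, ih (by omega), Finset.sum_range_succ,
      smul_apply, bs_apply, smul_eq_mul]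

theorem q_mf (l : ℕ) (c : ℕ → ℚ) (D : ℕ) (hD : D ≤ l + 1) :
    qExpansion 1 (mf l c D) = cm (∑ i ∈ Finset.range D,
      PowerSeries.C (c i) * (E4 ^ (3 * i) * Dl ^ (l - i))) := by
  induction D with
  | zero =>
    rw [mf, Finset.range_zero, Finset.sum_empty, map_zero]
    exact qExpansion_zero 1
  | succ D ih =>
    rw [mf, dif_pos (by omega), FunLike.coe_add,
      ModularForm.qExpansion_add one_pos one_mem_strictPeriods_SL, ih (by omega),
      Finset.sum_range_succ, map_add, FunLike.coe_smul,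
      ModularForm.qExpansion_smul one_pos one_mem_strictPeriods_SL, q_bs,
      map_mul cm (PowerSeries.C (c D)), PowerSeries.map_C, PowerSeries.smul_eq_C_mul]
    rfl

/-- `E_4^3` and `discriminant` under the modular group -/
theorem smul_form {k : ℤ} (f : ModularForm 𝒮ℒ k) (γ : SL(2, ℤ)) (z : ℍ) :
    f (γ • z) = denom γ z ^ k * f z := by
  have hγ : Matrix.SpecialLinearGroup.mapGL ℝ γ ∈
      MonoidHom.range (Matrix.SpecialLinearGroup.mapGL (R := ℤ) (n := Fin 2) ℝ) := ⟨γ, rfl⟩
  exact SlashInvariantForm.slash_action_eqn'' f hγ z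

theorem j_smul {x : ℂ} {z : ℍ} (h : E₄ z ^ 3 = x * discriminant z) (γ : SL(2, ℤ)) :
    E₄ (γ • z) ^ 3 = x * discriminant (γ • z) := by
  rw [← DF_apply, smul_form E₄, smul_form DF, mul_pow, h, DF_apply]
  have : (denom γ z ^ (4 : ℤ)) ^ 3 = denom γ z ^ (12 : ℤ) := by
    rw [← zpow_natCast, ← zpow_mul]; norm_num
  rw [this]; ring

/-- a real polynomial of positive even degree with leading coefficient one and negative value
at zero has a negative root -/
theorem neg_root (c : ℕ → ℝ) (D : ℕ) (hD : Even D) (hD0 : 0 < D) (h1 : c D = 1) (h0 : c 0 < 0) :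
    ∃ x : ℝ, x < 0 ∧ ∑ i ∈ Finset.range (D + 1), c i * x ^ i = 0 := by
  set P : Polynomial ℝ := ∑ i ∈ Finset.range (D + 1), Polynomial.C (c i * (-1) ^ i) * Polynomial.X ^ i
    with hP
  have hev : ∀ x : ℝ, P.eval x = ∑ i ∈ Finset.range (D + 1), c i * (-x) ^ i := by
    intro x
    rw [hP, Polynomial.eval_finset_sum]
    refine Finset.sum_congr rfl fun i _ => ?_
    rw [Polynomial.eval_mul, Polynomial.eval_C, Polynomial.eval_pow, Polynomial.eval_X,
      neg_pow x i]
    ring
  have hco : ∀ n, P.coeff n = if n < D + 1 then c n * (-1) ^ n else 0 := by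
    intro n
    rw [hP, Polynomial.finset_sum_coeff]
    simp only [Polynomial.coeff_C_mul, Polynomial.coeff_X_pow]
    simp
  have hdeg : P.natDegree = D := by
    apply le_antisymm
    · rw [Polynomial.natDegree_le_iff_coeff_eq_zero]
      intro n hn
      rw [hco, if_neg (by omega)]
    · apply Polynomial.le_natDegree_of_ne_zero
      rw [hco, if_pos (by omega), h1, hD.neg_one_pow]
      norm_num
  have hlc : P.leadingCoeff = 1 := by
    rw [Polynomial.leadingCoeff, hdeg, hco, if_pos (by omega), h1, hD.neg_one_pow, one_mul]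
  have hlim : Tendsto (fun x => P.eval x) atTop atTop := by
    apply Polynomial.tendsto_atTop_of_leadingCoeff_nonneg
    · rw [Polynomial.degree_eq_natDegree (by
        intro h; rw [h] at hlc; simp at hlc), hdeg]
      exact_mod_cast hD0
    · rw [hlc]; norm_num
  obtain ⟨y, hy1, hy2⟩ := ((hlim.eventually (eventually_gt_atTop 0)).and
    (eventually_gt_atTop (0 : ℝ))).exists
  have hP0 : P.eval 0 < 0 := by
    rw [hev]
    simp only [neg_zero]
    rw [Finset.sum_range_succ', Finset.sum_eq_zero]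
    · simpa using h0
    · intro i _
      simp
  have hc : ContinuousOn (fun x => P.eval x) (Set.Icc 0 y) := P.continuous.continuousOn
  obtain ⟨t, ht, ht0⟩ := intermediate_value_Icc hy2.le hc ⟨hP0.le, hy1.le⟩
  simp only at ht0
  refine ⟨-t, ?_, ?_⟩
  · rcases eq_or_lt_of_le ht.1 with h | h
    · rw [← h] at ht0; rw [ht0] at hP0; exact absurd hP0 (lt_irrefl _)
    · linarith
  · rw [← hev]; exact ht0

/-- The form `q^191 + O(q^304)` of weight `12 * 303` has a zero which is not on the arc. -/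
theorem main303 : ∃ f : ModularForm 𝒮ℒ ((12 * 303 : ℕ) : ℤ),
    (∀ n ≤ 303, (qExpansion 1 f).coeff n = if n = 191 then 1 else 0) ∧
    ∃ z : ℍ, f z = 0 ∧ ∀ γ : SL(2, ℤ), ∀ θ : ℝ, Real.pi / 2 ≤ θ → θ ≤ 2 * Real.pi / 3 →
      ((γ • z : ℍ) : ℂ) ≠ Complex.exp (θ * Complex.I) := by
  obtain ⟨c, h1, h2, h3⟩ := exists_c 303 112 (by norm_num)
  have hc0 : c 0 < 0 := by
    rw [c_zero (by norm_num : 112 ≤ 303) c h3 R_ser]
    exact coeff_sign
  refine ⟨mf 303 c 113, fun n hn => ?_, ?_⟩
  · rw [q_mf 303 c 113 (by norm_num)]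
    have h4 := h3 n hn
    rw [frm] at h4
    rw [PowerSeries.coeff_map, h4]
    split_ifs <;> simp_all
  · obtain ⟨x, hx, hroot⟩ := neg_root (fun i => (c i : ℝ)) 112 (by decide) (by norm_num)
      (by simp [h1]) (by exact_mod_cast hc0)
    obtain ⟨z, hz⟩ := exists_j (x : ℂ)
    refine ⟨z, ?_, ?_⟩
    · rw [mf_apply 303 c 113 (by norm_num)]
      have h5 : ∀ i ∈ Finset.range 113, ((c i : ℚ) : ℂ) * (E₄ z ^ (3 * i) * discriminant z ^ (303 - i)) =
          discriminant z ^ 303 * (((c i : ℝ) : ℂ) * (x : ℂ) ^ i) := by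
        intro i hi
        have hi' := Finset.mem_range.1 hi
        rw [pow_mul, hz, mul_pow]
        have : discriminant z ^ 303 = discriminant z ^ i * discriminant z ^ (303 - i) := by rw [← pow_add]; congr 1; omega
        rw [this]
        push_cast
        ring
      rw [Finset.sum_congr rfl h5, ← Finset.mul_sum]
      have h6 : ∑ i ∈ Finset.range 113, (((c i : ℝ) : ℂ) * (x : ℂ) ^ i) = 0 := by
        have := congrArg (fun t : ℝ => (t : ℂ)) hroot
        push_cast at this
        push_cast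
        exact this
      rw [h6, mul_zero]
    · intro γ θ hθ1 hθ2 heq
      have h7 := arc_nonneg hθ1 hθ2 (z := γ • z) heq
      have h8 := j_smul hz γ
      rw [jj_eq, h8, mul_div_assoc, div_self (discriminant_ne_zero _), mul_one,
        Complex.ofReal_re] at h7
      linarith

/-- existence and uniqueness of the Miller basis forms -/
theorem miller_unique (l m : ℕ) (hm : m ≤ l) : ∃! f : ModularForm 𝒮ℒ ((12 * l : ℕ) : ℤ),
    ∀ n ≤ l, (qExpansion 1 f).coeff n = if n = m then 1 else 0 := by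
  obtain ⟨c, _, _, h3⟩ := exists_c l (l - m) (by omega)
  have hex : ∀ n ≤ l, (qExpansion 1 (mf l c (l - m + 1))).coeff n = if n = m then 1 else 0 := by
    intro n hn
    rw [q_mf l c (l - m + 1) (by omega)]
    have h4 := h3 n hn
    rw [frm] at h4
    rw [PowerSeries.coeff_map, h4, show l - (l - m) = m by omega]
    split_ifs <;> simp
  refine ⟨_, hex, fun g hg => ?_⟩
  rw [← sub_eq_zero]
  apply sturm_bound_levelOne_nat
  rw [FunLike.coe_sub, ModularForm.qExpansion_sub one_pos one_mem_strictPeriods_SL]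
  have : ∀ n ≤ l, (qExpansion 1 g - qExpansion 1 (mf l c (l - m + 1))).coeff n = 0 := by
    intro n hn
    rw [map_sub, hg n hn, hex n hn, sub_self]
  rw [show 12 * l / 12 = l by omega]
  have h9 : ((l + 1 : ℕ) : ℕ∞) ≤ (qExpansion 1 g - qExpansion 1 (mf l c (l - m + 1))).order :=
    PowerSeries.nat_le_order _ _ fun i hi => this i (by omega)
  refine lt_of_lt_of_le ?_ h9
  exact_mod_cast Nat.lt_succ_self l

end Pool.Agent.Q17.Mil
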